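import Pool.Agent.Q122.MB.WIN

set_option autoImplicit false

/-! Project MB: the final theorem. -/

namespace Pool.Agent.Q122.MB

open Finset Filter Topology MeasureTheory Pool.Agent.H306R2.RZ Pool.Agent.H306R2.RG
open Pool.Agent.Q122.FM

noncomputable section

theorem isFund8 {ε : ℤ} (hε : ε = 1 ∨ ε = -1) {d : ℕ} (hd : Odd d) (hs : Squarefree d) :
    IsFund (ε * ((8 * d : ℕ) : ℤ)) := by
  right
  refine ⟨2 * ε * d, by push_cast; ring, ?_, ?_⟩
  · left
    obtain ⟨j, hj⟩ := hd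
    subst hj
    rcases hε with rfl | rfl
    · push_cast; omega
    · push_cast; omega
  · rw [← Int.squarefree_natAbs]
    have : (2 * ε * (d : ℤ)).natAbs = 2 * d := by
      rcases hε with rfl | rfl
      · simp [Int.natAbs_mul]
      · simp [Int.natAbs_mul]
    rw [this, Nat.squarefree_mul ((Nat.coprime_two_left).2 hd)]
    exact ⟨Nat.prime_two.squarefree, hs⟩

open Classical in
theorem LH_eq (fdd : S_FDD) {ε : ℤ} (hε : ε = 1 ∨ ε = -1) {d : ℕ} (hd : Odd d)
    (hs : Squarefree d) : LHalf (ε * ((8 * d : ℕ) : ℤ)) = LLg (F8 ε) d (1 / 2) := by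
  have hd1 : 1 ≤ d := Nat.pos_of_ne_zero hs.ne_zero
  have h := fdd.2 ε hε (8 * d) (by omega)
  rw [if_pos (isFund8 hε hd hs)] at h
  have e1 : 8 * d / 8 = d := Nat.mul_div_cancel_left d (by norm_num)
  have e2 : 8 * d / 4 = 2 * d := by omega
  rw [e1, e2] at h
  have a1 : 8 ∣ 8 * d ∧ (F8 ε).A d ∧ Squarefree d := ⟨Dvd.intro _ rfl, hd, hs⟩
  have a2 : ¬ (4 ∣ 8 * d ∧ (F4 ε).A (2 * d) ∧ Squarefree (2 * d)) := by
    rintro ⟨_, h2, _⟩
    simp only [F4] at h2
    rcases hε with rfl | rfl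
    · push_cast at h2; omega
    · push_cast at h2; omega
  have a3 : ¬ ((F1 ε 1).A (8 * d) ∧ Squarefree (8 * d)) := by
    rintro ⟨h2, _⟩
    simp only [F1] at h2
    rcases hε with rfl | rfl
    · push_cast at h2; omega
    · push_cast at h2; omega
  have a4 : ¬ ((F1 ε 5).A (8 * d) ∧ Squarefree (8 * d)) := by
    rintro ⟨h2, _⟩
    simp only [F1] at h2
    rcases hε with rfl | rfl
    · push_cast at h2; omega
    · push_cast at h2; omega
  rw [if_pos a1, if_neg a2, if_neg a3, if_neg a4] at h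
  rw [h]
  ring

theorem mom_nonneg (ε : ℤ) (k y h : ℕ) : 0 ≤ mom ε k y h :=
  sum_nonneg fun _ _ => pow_nonneg (abs_nonneg _) _

theorem mom_add (ε : ℤ) (k y h j : ℕ) :
    mom ε k y (h + j) = mom ε k y h + mom ε k (y + h) j := by
  unfold mom wi
  rw [← sum_union]
  · congr 1
    ext n
    simp only [mem_union, mem_filter, mem_Ioc]
    constructor
    · rintro ⟨⟨h1, h2⟩, h3⟩
      by_cases h4 : n ≤ y + h
      · exact Or.inl ⟨⟨h1, h4⟩, h3⟩
      · exact Or.inr ⟨⟨by omega, by omega⟩, h3⟩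
    · rintro (⟨⟨h1, h2⟩, h3⟩ | ⟨⟨h1, h2⟩, h3⟩)
      · exact ⟨⟨h1, by omega⟩, h3⟩
      · exact ⟨⟨by omega, by omega⟩, h3⟩
  · rw [Finset.disjoint_left]
    intro n hn
    simp only [mem_filter, mem_Ioc] at hn ⊢
    intro hc
    omega

theorem mom_sum (ε : ℤ) (k y h J : ℕ) :
    mom ε k y (J * h) = ∑ j ∈ range J, mom ε k (y + j * h) h := by
  induction J with
  | zero => simp [mom, wi]
  | succ J ih =>
    rw [sum_range_succ, ← ih, Nat.succ_mul, mom_add]

theorem mom_mono (ε : ℤ) (k y : ℕ) {h j : ℕ} (hj : h ≤ j) : mom ε k y h ≤ mom ε k y j := by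
  obtain ⟨i, rfl⟩ := Nat.exists_eq_add_of_le hj
  rw [mom_add]
  linarith [mom_nonneg ε k (y + h) i]

open Classical in
theorem MK_ge (fdd : S_FDD) {ε : ℤ} (hε : ε = 1 ∨ ε = -1) (k x H : ℕ) :
    mom ε k (x / 8) ((x + H) / 8 - x / 8) ≤ MK ε k x H := by
  have hle : x / 8 ≤ (x + H) / 8 := Nat.div_le_div_right (Nat.le_add_right _ _)
  unfold mom MK
  have hmem : ∀ d ∈ wi (x / 8) ((x + H) / 8 - x / 8),
      x / 8 < d ∧ d ≤ (x + H) / 8 ∧ Odd d ∧ Squarefree d := by
    intro d hd
    simp only [wi, mem_filter, mem_Ioc] at hd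
    exact ⟨hd.1.1, by omega, Nat.odd_iff.2 (by omega), hd.2.2⟩
  have e1 : ∑ d ∈ wi (x / 8) ((x + H) / 8 - x / 8), |LLg (F8 ε) d (1 / 2)| ^ k =
      ∑ d ∈ wi (x / 8) ((x + H) / 8 - x / 8),
        (fun n : ℕ => if IsFund (ε * n) then |LHalf (ε * n)| ^ k else 0) (8 * d) := by
    apply sum_congr rfl
    intro d hd
    obtain ⟨_, _, hd3, hd4⟩ := hmem d hd
    simp only
    rw [if_pos (isFund8 hε hd3 hd4), LH_eq fdd hε hd3 hd4]
  rw [e1]
  have hinj : Set.InjOn (fun d : ℕ => 8 * d) (wi (x / 8) ((x + H) / 8 - x / 8) : Finset ℕ) := by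
    intro a _ b _ hab
    simp only at hab
    omega
  rw [← sum_image (f := fun n : ℕ => if IsFund (ε * n) then |LHalf (ε * n)| ^ k else 0)
    (g := fun d : ℕ => 8 * d) hinj]
  apply sum_le_sum_of_subset_of_nonneg
  · intro n hn
    rw [mem_image] at hn
    obtain ⟨d, hd, rfl⟩ := hn
    obtain ⟨hd1, hd2, _, _⟩ := hmem d hd
    rw [mem_Ioc]
    omega
  · intro n _ _
    split_ifs
    · positivity
    · exact le_rfl

/-- counting the bad `x` -/
theorem count_bad (ε : ℤ) (k : ℕ) (F : ℕ → ℝ) (X H h J : ℕ) (t : ℝ) (ht : 0 < t) (hX : 1 ≤ X)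
    (hJ : 1 ≤ J) (hJh : 16 * (J * h) ≤ H) (hHX : H ≤ X) (U : ℝ)
    (hF : ∀ x ∈ Icc 1 X, mom ε k (x / 8) (J * h) ≤ F x) (hU : 2 * U ≤ J * t) :
    (((Icc 1 X).filter (fun x => F x < U)).card : ℝ) ≤
      16 * (((range X).filter (fun y => mom ε k y h < t)).card : ℝ) := by
  set Bd := (range X).filter (fun y => mom ε k y h < t) with hBd
  set S := (Icc 1 X).filter (fun x => F x < U) with hS
  have hJ0 : (0 : ℝ) < J := by exact_mod_cast hJ
  have hrange : ∀ x ∈ Icc 1 X, ∀ j ∈ range J, x / 8 + j * h < X := by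
    intro x hx j hj
    rw [mem_Icc] at hx
    rw [mem_range] at hj
    have h1 : j * h ≤ J * h := Nat.mul_le_mul_right h hj.le
    omega
  have h1 : ∀ x ∈ S, (J : ℝ) / 2 ≤
      (((range J).filter (fun j => x / 8 + j * h ∈ Bd)).card : ℝ) := by
    intro x hx
    rw [hS, mem_filter] at hx
    have h2 := hF x hx.1
    rw [mom_sum] at h2
    have h3 : (((range J).filter (fun j => ¬ (x / 8 + j * h ∈ Bd))).card : ℝ) * t ≤
        ∑ j ∈ range J, mom ε k (x / 8 + j * h) h := by
      calc _ = ∑ j ∈ (range J).filter (fun j => ¬ (x / 8 + j * h ∈ Bd)), t := by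
            rw [sum_const, nsmul_eq_mul]
        _ ≤ ∑ j ∈ (range J).filter (fun j => ¬ (x / 8 + j * h ∈ Bd)),
            mom ε k (x / 8 + j * h) h := by
            apply sum_le_sum
            intro j hj
            rw [mem_filter] at hj
            by_contra hlt
            rw [not_le] at hlt
            apply hj.2
            rw [hBd, mem_filter, mem_range]
            exact ⟨hrange x hx.1 j hj.1, hlt⟩
        _ ≤ _ := sum_le_sum_of_subset_of_nonneg (filter_subset _ _)
            fun j _ _ => mom_nonneg _ _ _ _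
    have h4 : (((range J).filter (fun j => x / 8 + j * h ∈ Bd)).card : ℝ) +
        (((range J).filter (fun j => ¬ (x / 8 + j * h ∈ Bd))).card : ℝ) = J := by
      have := card_filter_add_card_filter_not (s := range J) (fun j => x / 8 + j * h ∈ Bd)
      rw [card_range] at this
      exact_mod_cast this
    have h5 : (((range J).filter (fun j => ¬ (x / 8 + j * h ∈ Bd))).card : ℝ) * t < J / 2 * t := by
      have := hx.2
      linarith
    have h6 := lt_of_mul_lt_mul_right h5 ht.le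
    linarith
  have h2 : (S.card : ℝ) * (J / 2) ≤
      ∑ x ∈ Icc 1 X, (((range J).filter (fun j => x / 8 + j * h ∈ Bd)).card : ℝ) := by
    calc (S.card : ℝ) * (J / 2) = ∑ x ∈ S, (J : ℝ) / 2 := by rw [sum_const, nsmul_eq_mul]
      _ ≤ ∑ x ∈ S, (((range J).filter (fun j => x / 8 + j * h ∈ Bd)).card : ℝ) := sum_le_sum h1
      _ ≤ _ := sum_le_sum_of_subset_of_nonneg (filter_subset _ _) fun x _ _ => by positivity
  have h3 : ∑ x ∈ Icc 1 X, (((range J).filter (fun j => x / 8 + j * h ∈ Bd)).card : ℝ) =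
      ∑ j ∈ range J, (((Icc 1 X).filter (fun x => x / 8 + j * h ∈ Bd)).card : ℝ) := by
    have e1 : ∀ x ∈ Icc 1 X, (((range J).filter (fun j => x / 8 + j * h ∈ Bd)).card : ℝ) =
        ∑ j ∈ range J, if x / 8 + j * h ∈ Bd then (1 : ℝ) else 0 := by
      intro x _
      rw [card_filter]
      push_cast
      rfl
    have e2 : ∀ j ∈ range J, (((Icc 1 X).filter (fun x => x / 8 + j * h ∈ Bd)).card : ℝ) =
        ∑ x ∈ Icc 1 X, if x / 8 + j * h ∈ Bd then (1 : ℝ) else 0 := by
      intro j _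
      rw [card_filter]
      push_cast
      rfl
    rw [sum_congr rfl e1, sum_congr rfl e2, sum_comm]
  have h4 : ∀ j ∈ range J, (((Icc 1 X).filter (fun x => x / 8 + j * h ∈ Bd)).card : ℝ) ≤
      8 * Bd.card := by
    intro j _
    have := Finset.card_le_mul_card_image_of_maps_to (s := (Icc 1 X).filter
      (fun x => x / 8 + j * h ∈ Bd)) (t := Bd) (f := fun x => x / 8 + j * h)
      (fun x hx => (mem_filter.1 hx).2) 8 (by
        intro b _
        calc _ ≤ (Ico (8 * (b - j * h)) (8 * (b - j * h) + 8)).card := by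
              apply card_le_card
              intro x hx
              rw [mem_filter] at hx
              rw [mem_Ico]
              have := hx.2
              omega
          _ = 8 := by rw [Nat.card_Ico]; omega)
    exact_mod_cast this
  have h5 : (S.card : ℝ) * (J / 2) ≤ J * (8 * Bd.card) := by
    calc (S.card : ℝ) * (J / 2) ≤ ∑ j ∈ range J, (8 * (Bd.card : ℝ)) := by
          rw [h3] at h2
          exact h2.trans (sum_le_sum h4)
      _ = _ := by rw [sum_const, card_range, nsmul_eq_mul]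
  have h6 : (S.card : ℝ) * (J / 2) ≤ (16 * Bd.card) * (J / 2) := by linarith
  exact le_of_mul_le_mul_right h6 (by positivity)

theorem t_MB (spl : S_SPL) (nsb : S_NSB) (ebl : S_EBL) (dp : S_DP) (rep : S_REP) (frz : S_FRZ)
    (gd : S_GD) (wa1 : S_WA1) (upm : S_UPM) (fdd : S_FDD) : S_MB := by
  intro k hk ε0 hε0
  set ε1 : ℝ := min (ε0 / 2) (1 / 8) with hε1
  have h1 : 0 < ε1 := lt_min (by positivity) (by norm_num)
  have h18 : ε1 ≤ 1 / 8 := min_le_right _ _
  have h12 : ε1 ≤ ε0 / 2 := min_le_left _ _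
  obtain ⟨c, hc, Y0, hwin⟩ := win spl nsb ebl dp rep frz gd wa1 upm k hk ε1 h1 h18
  refine ⟨c / 64, ε1 / 48, by positivity, by positivity, ?_⟩
  have p1 := params k hk ε1 h1 h18
  have p2 := evlog 16 0 (show (0 : ℝ) < ε0 / 2 by positivity)
  have p3 := evlog 16 0 (show (0 : ℝ) < ε1 / 48 by positivity)
  obtain ⟨X1, hX1⟩ := eventually_atTop.1 (p1.and (p2.and p3))
  refine ⟨max Y0 X1, ?_⟩
  intro ε hε X H hX hH hHX
  obtain ⟨hpf, e1, e2⟩ := hX1 X ((le_max_right _ _).trans hX)
  rw [pow_zero, mul_one] at e1 e2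
  have hw := hwin ε hε X ((le_max_left _ _).trans hX)
  set h := ⌊(X : ℝ) ^ ε1⌋₊ with hh
  have hX3 := hpf.Y3
  have hX1r : (1 : ℝ) ≤ X := by
    have : (3 : ℝ) ≤ X := by exact_mod_cast hX3
    linarith
  have hX0 : (0 : ℝ) < X := by linarith
  have hh1 := hpf.h1
  have hhi := hpf.hhi
  have hhr : (0 : ℝ) < h := by exact_mod_cast hh1
  have hT : 0 < Real.log (X : ℝ) := by linarith [one_le_log hX3]
  -- 16 h ≤ H
  have hhH : 16 * h ≤ H := by
    have : 16 * (h : ℝ) ≤ H := by
      calc 16 * (h : ℝ) ≤ (X : ℝ) ^ (ε0 / 2) * (X : ℝ) ^ (ε0 / 2) := by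
            apply mul_le_mul e1 _ hhr.le (by positivity)
            exact hhi.trans (Real.rpow_le_rpow_of_exponent_le hX1r h12)
        _ = (X : ℝ) ^ ε0 := by rw [← Real.rpow_add hX0]; ring_nf
        _ ≤ H := hH
    exact_mod_cast this
  set J := H / (16 * h) with hJ
  have hJ1 : 1 ≤ J := by
    rw [hJ, Nat.le_div_iff_mul_le (by omega)]
    omega
  have hJh : 16 * (J * h) ≤ H := by
    have := Nat.div_mul_le_self H (16 * h)
    calc 16 * (J * h) = J * (16 * h) := by ring
      _ ≤ H := this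
  have hJlo : (H : ℝ) ≤ 32 * (J * h) := by
    have h3 : H < (16 * h) * (J + 1) := Nat.lt_mul_div_succ H (by omega)
    have h4 : H ≤ 32 * (J * h) := by
      have h5 : (16 * h) * (J + 1) = 16 * (J * h) + 16 * h := by ring
      have h6 : 1 * h ≤ J * h := Nat.mul_le_mul_right h hJ1
      omega
    exact_mod_cast h4
  have hcb := count_bad ε k (MK ε k · H) X H h J
    (c * (h : ℝ) * Real.log X ^ (k * (k + 1) / 2)) (by positivity) (by omega) hJ1 hJh hHX
    (c / 64 * H * Real.log X ^ (k * (k + 1) / 2)) (by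
      intro x _
      refine le_trans ?_ (MK_ge fdd hε k x H)
      apply mom_mono
      omega) (by
      have : 0 < c * Real.log (X : ℝ) ^ (k * (k + 1) / 2) := by positivity
      have h7 := mul_le_mul_of_nonneg_left hJlo this.le
      calc 2 * (c / 64 * H * Real.log X ^ (k * (k + 1) / 2)) =
            c * Real.log (X : ℝ) ^ (k * (k + 1) / 2) * H / 32 := by ring
        _ ≤ c * Real.log (X : ℝ) ^ (k * (k + 1) / 2) * (32 * (J * h)) / 32 := by linarith
        _ = _ := by ring)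
  refine hcb.trans ?_
  calc 16 * (((range X).filter (fun y => mom ε k y h <
        c * (h : ℝ) * Real.log X ^ (k * (k + 1) / 2))).card : ℝ) ≤
        (X : ℝ) ^ (ε1 / 48) * (X : ℝ) ^ (1 - ε1 / 24) :=
        mul_le_mul e2 hw (by positivity) (by positivity)
    _ = (X : ℝ) ^ (1 - ε1 / 48) := by
        rw [← Real.rpow_add hX0]
        congr 1
        ring

end

end Pool.Agent.Q122.MB
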