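import Pool.Agent.Q122.MB.S1
import Pool.Agent.Q122.FM.COR

set_option autoImplicit false

/-! Project MB: windows, preparations. -/

namespace Pool.Agent.Q122.MB

open Finset Filter Topology MeasureTheory Pool.Agent.H306R2.RZ Pool.Agent.H306R2.RG
open Pool.Agent.Q122.FM

noncomputable section

theorem Po_pos : 0 < Po := by
  have h1 := Pool.Agent.Q275.FM.key_prod
  have h2 := P1_pos
  have h3 : 0 < 6 / Real.pi ^ 2 * P1 := by positivity
  linarith

theorem card_markov (s : Finset ℕ) (f : ℕ → ℝ) (hf : ∀ y ∈ s, 0 ≤ f y) (t : ℝ) (ht : 0 < t)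
    (S : ℝ) (hS : ∑ y ∈ s, f y ≤ S) (p : ℕ → Prop) [DecidablePred p]
    (hp : ∀ y ∈ s, p y → t ≤ f y) : ((s.filter p).card : ℝ) ≤ S / t := by
  rw [le_div_iff₀ ht]
  calc ((s.filter p).card : ℝ) * t = ∑ y ∈ s.filter p, t := by rw [sum_const, nsmul_eq_mul]
    _ ≤ ∑ y ∈ s.filter p, f y := by
        apply sum_le_sum
        intro y hy
        rw [mem_filter] at hy
        exact hp y hy.1 hy.2
    _ ≤ ∑ y ∈ s, f y := sum_le_sum_of_subset_of_nonneg (filter_subset _ _) fun y hy _ => hf y hy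
    _ ≤ S := hS

theorem PK_pos (K d : ℕ) : 0 < PK K d := by
  unfold PK
  apply inv_pos.2
  apply prod_pos
  intro p _
  positivity

theorem GY_lower (gd : S_GD) (wa1 : S_WA1) (K : ℕ) :
    ∃ cG C : ℝ, 0 < cG ∧ 0 < C ∧ ∀ Y h : ℕ, 1 ≤ h → h ≤ Y →
      (1 + Real.log (2 * (Y : ℝ))) ^ K ≤ h →
      (((range Y).filter (fun y => GY K y h < cG * h)).card : ℝ) ≤ C * Y / Real.sqrt h := by
  obtain ⟨Cw, hCw, wa1⟩ := wa1
  obtain ⟨Cg, hCg, gd⟩ := gd K
  have hPo := Po_pos
  refine ⟨(Po / 16) ^ 2 / (2 * Cg), 16 * Cw / Po, by positivity, by positivity, ?_⟩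
  intro Y h hh hhY hlog
  have hh0 : (0 : ℝ) < h := by exact_mod_cast hh
  have hwa := wa1 1 (by norm_num) (by decide) Y h hh hhY
  have hwi : ∀ y, (Ioc y (y + h)).filter (fun d => d % 8 = 1 ∧ Squarefree d) = wi y h :=
    fun y => rfl
  have hmk := card_markov (range Y) (fun y => |∑ d ∈ wi y h, (d.totient : ℝ) / d - Po / 8 * h|)
    (fun y _ => abs_nonneg _) (Po / 16 * h) (by positivity) _ hwa
    (fun y => GY K y h < (Po / 16) ^ 2 / (2 * Cg) * h) (by
      intro y hy hG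
      rw [mem_range] at hy
      by_contra hlt
      rw [not_le] at hlt
      have h1 : Po / 16 * h < ∑ d ∈ wi y h, (d.totient : ℝ) / d := by
        have := (abs_lt.1 hlt).1
        linarith
      have h2 : ∑ d ∈ wi y h, (d.totient : ℝ) / d ≤ (wi y h).card := by
        calc _ ≤ ∑ d ∈ wi y h, (1 : ℝ) := by
              apply sum_le_sum
              intro d hd
              rw [wi, mem_filter] at hd
              have hd0 : 0 < d := Nat.pos_of_ne_zero hd.2.2.ne_zero
              have hd0' : (0 : ℝ) < d := by exact_mod_cast hd0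
              rw [div_le_one hd0']
              exact_mod_cast Nat.totient_le d
          _ = _ := by simp
      have h3 : ((wi y h).card : ℝ) ^ 2 ≤ GY K y h * ∑ d ∈ wi y h, (PK K d)⁻¹ := by
        have := sum_mul_sq_le_sq_mul_sq (wi y h) (fun d => Real.sqrt (PK K d))
          (fun d => Real.sqrt ((PK K d)⁻¹))
        have e1 : ∀ d ∈ wi y h, Real.sqrt (PK K d) * Real.sqrt ((PK K d)⁻¹) = 1 := by
          intro d _
          rw [← Real.sqrt_mul (PK_pos K d).le, mul_inv_cancel₀ (PK_pos K d).ne', Real.sqrt_one]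
        rw [sum_congr rfl e1] at this
        have e2 : ∀ d ∈ wi y h, Real.sqrt (PK K d) ^ 2 = PK K d :=
          fun d _ => Real.sq_sqrt (PK_pos K d).le
        have e3 : ∀ d ∈ wi y h, Real.sqrt ((PK K d)⁻¹) ^ 2 = (PK K d)⁻¹ :=
          fun d _ => Real.sq_sqrt (inv_pos.2 (PK_pos K d)).le
        rw [sum_congr rfl e2, sum_congr rfl e3] at this
        simpa [GY] using this
      have h4 : ∑ d ∈ wi y h, (PK K d)⁻¹ ≤ 2 * Cg * h := by
        calc ∑ d ∈ wi y h, (PK K d)⁻¹ ≤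
              ∑ d ∈ Ioc y (y + h), ∏ p ∈ d.primeFactors, (1 + (K : ℝ) / p) := by
              have e4 : ∀ d ∈ wi y h, (PK K d)⁻¹ = ∏ p ∈ d.primeFactors, (1 + (K : ℝ) / p) := by
                intro d _
                unfold PK
                rw [inv_inv]
              rw [sum_congr rfl e4]
              apply sum_le_sum_of_subset_of_nonneg (filter_subset _ _)
              intro d _ _
              apply prod_nonneg
              intro p _
              positivity
          _ ≤ Cg * (h + (1 + Real.log ((y + h : ℕ) : ℝ)) ^ K) := gd y h hh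
          _ ≤ Cg * (h + h) := by
              apply mul_le_mul_of_nonneg_left _ hCg.le
              have hyh1 : (1 : ℝ) ≤ ((y + h : ℕ) : ℝ) := by
                have : 1 ≤ y + h := by omega
                exact_mod_cast this
              have hyh : ((y + h : ℕ) : ℝ) ≤ 2 * Y := by
                have : y + h ≤ 2 * Y := by omega
                exact_mod_cast this
              have h5 : Real.log ((y + h : ℕ) : ℝ) ≤ Real.log (2 * (Y : ℝ)) :=
                Real.log_le_log (by linarith) hyh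
              have h6 : 0 ≤ Real.log ((y + h : ℕ) : ℝ) := Real.log_nonneg hyh1
              have h7 : (1 + Real.log ((y + h : ℕ) : ℝ)) ^ K ≤
                  (1 + Real.log (2 * (Y : ℝ))) ^ K :=
                pow_le_pow_left₀ (by linarith) (by linarith) K
              linarith
          _ = 2 * Cg * h := by ring
      have hGnn : 0 ≤ GY K y h := sum_nonneg fun d _ => (PK_pos K d).le
      have h5 : (Po / 16 * h) ^ 2 < ((wi y h).card : ℝ) ^ 2 := by
        apply pow_lt_pow_left₀ _ (by positivity) (by norm_num)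
        linarith
      have h6 : GY K y h * ∑ d ∈ wi y h, (PK K d)⁻¹ ≤ GY K y h * (2 * Cg * h) :=
        mul_le_mul_of_nonneg_left h4 hGnn
      have h7 : GY K y h * (2 * Cg * h) < (Po / 16) ^ 2 / (2 * Cg) * h * (2 * Cg * h) :=
        mul_lt_mul_of_pos_right hG (by positivity)
      have h8 : (Po / 16) ^ 2 / (2 * Cg) * h * (2 * Cg * h) = (Po / 16 * h) ^ 2 := by
        field_simp
      linarith)
  refine hmk.trans (le_of_eq ?_)
  have hs : Real.sqrt h * Real.sqrt h = h := Real.mul_self_sqrt hh0.le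
  have hs0 : 0 < Real.sqrt h := Real.sqrt_pos.2 hh0
  rw [div_eq_div_iff (by positivity) hs0.ne']
  calc Cw * Y * Real.sqrt h * Real.sqrt h = Cw * Y * (Real.sqrt h * Real.sqrt h) := by ring
    _ = Cw * Y * h := by rw [hs]
    _ = _ := by field_simp

/-- Hölder's inequality -/
theorem holder (s : Finset ℕ) (x w : ℕ → ℝ) (hx : ∀ i, 0 ≤ x i) (hw : ∀ i, 0 ≤ w i) (k : ℕ)
    (hk : 1 ≤ k) : (∑ i ∈ s, x i * w i ^ (k - 1)) ^ k ≤
      (∑ i ∈ s, x i ^ k) * (∑ i ∈ s, w i ^ k) ^ (k - 1) := by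
  rcases Nat.eq_or_lt_of_le hk with rfl | hk2
  · simp
  · have hk1 : (1 : ℝ) < k := by exact_mod_cast hk2
    have hk0 : (0 : ℝ) < k := by linarith
    have hpq : (k : ℝ).HolderConjugate (k / (k - 1)) := by
      have := Real.HolderConjugate.conjExponent hk1
      exact this
    have h1 := Real.inner_le_Lp_mul_Lq_of_nonneg s hpq (f := x) (g := fun i => w i ^ (k - 1))
      (fun i _ => hx i) (fun i _ => pow_nonneg (hw i) _)
    have e1 : ∀ i, (x i) ^ (k : ℝ) = x i ^ k := fun i => Real.rpow_natCast _ _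
    have hkc : ((k - 1 : ℕ) : ℝ) = k - 1 := by
      rw [Nat.cast_sub hk]; simp
    have e2 : ∀ i, (w i ^ (k - 1)) ^ ((k : ℝ) / (k - 1)) = w i ^ k := by
      intro i
      rw [← Real.rpow_natCast, ← Real.rpow_mul (hw i), hkc, ← Real.rpow_natCast (w i) k]
      congr 1
      have : (k : ℝ) - 1 ≠ 0 := by linarith
      field_simp
    simp only [e1, e2] at h1
    have hnn1 : 0 ≤ ∑ i ∈ s, x i ^ k := sum_nonneg fun i _ => pow_nonneg (hx i) _
    have hnn2 : 0 ≤ ∑ i ∈ s, w i ^ k := sum_nonneg fun i _ => pow_nonneg (hw i) _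
    have hnn0 : 0 ≤ ∑ i ∈ s, x i * w i ^ (k - 1) :=
      sum_nonneg fun i _ => mul_nonneg (hx i) (pow_nonneg (hw i) _)
    calc (∑ i ∈ s, x i * w i ^ (k - 1)) ^ k ≤
          ((∑ i ∈ s, x i ^ k) ^ (1 / (k : ℝ)) * (∑ i ∈ s, w i ^ k) ^ (1 / ((k : ℝ) / (k - 1)))) ^ k :=
          pow_le_pow_left₀ hnn0 h1 k
      _ = _ := by
          rw [mul_pow]
          congr 1
          · rw [← Real.rpow_natCast, ← Real.rpow_mul hnn1]
            rw [one_div, inv_mul_cancel₀ hk0.ne', Real.rpow_one]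
          · rw [← Real.rpow_natCast, ← Real.rpow_mul hnn2, ← Real.rpow_natCast _ (k - 1), hkc]
            congr 1
            field_simp

/-- moments over one class -/
def mom (ε : ℤ) (k y h : ℕ) : ℝ := ∑ d ∈ wi y h, |LLg (F8 ε) d (1 / 2)| ^ k

theorem mom_lower (ε : ℤ) (k N0 y h : ℕ) (hk : 1 ≤ k) (A U : ℝ) (hA : 0 ≤ A) (hU : 0 < U)
    (h1 : A ≤ FY ε k N0 y h)
    (h2 : ∑ d ∈ (Ioc y (y + h)).filter (fun d => d % 8 = 1), DD (2 * ε) N0 d ^ (2 * k) ≤ U) :
    A ^ k / U ^ (k - 1) ≤ mom ε k y h := by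
  have h3 : FY ε k N0 y h ≤ ∑ d ∈ wi y h, |LLg (F8 ε) d (1 / 2)| *
      (DD (2 * ε) N0 d ^ 2) ^ (k - 1) := by
    unfold FY
    apply sum_le_sum
    intro d _
    rw [← pow_mul, show 2 * (k - 1) = 2 * k - 2 by omega]
    apply mul_le_mul_of_nonneg_right (le_abs_self _)
    have : Even (2 * k - 2) := ⟨k - 1, by omega⟩
    exact this.pow_nonneg _
  have h4 := holder (wi y h) (fun d => |LLg (F8 ε) d (1 / 2)|) (fun d => DD (2 * ε) N0 d ^ 2)
    (fun d => abs_nonneg _) (fun d => sq_nonneg _) k hk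
  have h5 : ∑ d ∈ wi y h, (DD (2 * ε) N0 d ^ 2) ^ k ≤ U := by
    refine le_trans ?_ h2
    have e1 : ∀ d ∈ wi y h, (DD (2 * ε) N0 d ^ 2) ^ k = DD (2 * ε) N0 d ^ (2 * k) :=
      fun d _ => (pow_mul _ _ _).symm
    rw [sum_congr rfl e1]
    apply sum_le_sum_of_subset_of_nonneg
    · intro d hd
      rw [wi, mem_filter] at hd
      rw [mem_filter]
      exact ⟨hd.1, hd.2.1⟩
    · intro d _ _
      have : Even (2 * k) := ⟨k, by omega⟩
      exact this.pow_nonneg _
  have hnn : 0 ≤ ∑ d ∈ wi y h, (DD (2 * ε) N0 d ^ 2) ^ k :=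
    sum_nonneg fun d _ => pow_nonneg (sq_nonneg _) _
  have hm0 : 0 ≤ mom ε k y h := sum_nonneg fun d _ => pow_nonneg (abs_nonneg _) _
  rw [div_le_iff₀ (by positivity)]
  calc A ^ k ≤ (∑ d ∈ wi y h, |LLg (F8 ε) d (1 / 2)| *
      (DD (2 * ε) N0 d ^ 2) ^ (k - 1)) ^ k := pow_le_pow_left₀ hA (h1.trans h3) k
    _ ≤ mom ε k y h * (∑ d ∈ wi y h, (DD (2 * ε) N0 d ^ 2) ^ k) ^ (k - 1) := h4
    _ ≤ mom ε k y h * U ^ (k - 1) :=
        mul_le_mul_of_nonneg_left (pow_le_pow_left₀ hnn h5 _) hm0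

end

end Pool.Agent.Q122.MB
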