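import Pool.Agent.Q122.MB.Stm
import Pool.Agent.Q122.FM.Dec
import Pool.Agent.Q153.FM.Sq

set_option autoImplicit false

/-! Project MB: job EBL. -/

namespace Pool.Agent.Q122.MB

open Finset Filter Topology MeasureTheory Pool.Agent.H306R2.RZ Pool.Agent.H306R2.RG
open Pool.Agent.Q122.FM

noncomputable section

theorem IG_one (a : ℕ) : 1 / 2 * Real.exp (-(2 * Real.pi)) ≤ IG a 1 := by
  have hint := (Pool.Agent.Q153.FM.Sq.ff_int a).mono_set (Set.Ioi_subset_Ioi (zero_le_one' ℝ))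
  have h1 : ∫ t in Set.Ioc (1 : ℝ) 2, (1 / 2 * Real.exp (-(2 * Real.pi)) : ℝ) ≤
      ∫ t in Set.Ioc (1 : ℝ) 2, Pool.Agent.Q153.FM.Sq.ff a t := by
    apply setIntegral_mono_on (integrableOn_const (by simp)) (hint.mono_set Set.Ioc_subset_Ioi_self) measurableSet_Ioc
    intro t ht
    have ht1 : (1 : ℝ) ≤ t := ht.1.le
    have ht0 : (0 : ℝ) < t := by linarith
    unfold Pool.Agent.Q153.FM.Sq.ff
    have hpi := Real.pi_pos
    apply mul_le_mul
    · calc (1 / 2 : ℝ) ≤ t⁻¹ := by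
            rw [one_div]
            exact inv_anti₀ ht0 ht.2
        _ = t ^ (-1 : ℝ) := (Real.rpow_neg_one t).symm
        _ ≤ _ := by
            apply Real.rpow_le_rpow_of_exponent_le ht1
            have : (0 : ℝ) ≤ a := Nat.cast_nonneg a
            linarith
    · apply Real.exp_le_exp.2
      have := ht.2
      nlinarith
    · positivity
    · positivity
  have h2 : ∫ t in Set.Ioc (1 : ℝ) 2, (1 / 2 * Real.exp (-(2 * Real.pi)) : ℝ) =
      1 / 2 * Real.exp (-(2 * Real.pi)) := by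
    rw [setIntegral_const]
    simp
    norm_num
  rw [← h2]
  refine h1.trans ?_
  unfold IG
  refine setIntegral_mono_set hint ?_ Set.Ioc_subset_Ioi_self.eventuallyLE
  rw [EventuallyLE, ae_restrict_iff' measurableSet_Ioi]
  refine Eventually.of_forall fun t ht => ?_
  have : (1 : ℝ) < t := ht
  exact Pool.Agent.Q153.FM.Sq.ff_nonneg a (by linarith)

theorem cB_nonneg {a : ℕ} {β : ℕ → ℝ} (hβ : ∀ b, 0 ≤ β b) (B N : ℕ) {z : ℝ} (hz : 0 < z) (m : ℕ) :
    0 ≤ cB a β B N z m := by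
  unfold cB
  apply sum_nonneg
  intro b _
  apply mul_nonneg (hβ b)
  apply mul_nonneg (by positivity)
  exact Pool.Agent.Q153.FM.Sq.IG_nonneg a (by positivity)

theorem t_EBL (dp : S_DP) (wkc : S_WKC) (lbm : S_LBM) : S_EBL := by
  intro k hk
  set K : ℕ := k * (k + 1) / 2 with hK
  have hK1 : 1 ≤ K := by
    rw [hK, Nat.le_div_iff_mul_le (by norm_num)]
    nlinarith
  obtain ⟨cl, hcl, lbm⟩ := lbm K hK1
  set c1 : ℝ := 1 / 2 * Real.exp (-(2 * Real.pi)) with hc1
  have hc10 : 0 < c1 := by positivity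
  refine ⟨c1 * cl, by positivity, ?_⟩
  intro e he a ha N0 M N d z hM hMN hNN hd hz hzN
  have hN0 : 1 ≤ N0 := le_trans (Nat.one_le_pow _ _ hM) hMN
  obtain ⟨d1, d2, d3, d4⟩ := dp N0 (2 * k - 2) hN0
  set β : ℕ → ℝ := Gp N0 (2 * k - 2) with hβ
  set B : ℕ := N0 ^ (2 * k - 2) with hB
  have hB1 : 1 ≤ B := Nat.one_le_pow _ _ hN0
  have hd1 : 1 ≤ d := by
    rcases hd with ⟨j, hj⟩
    omega
  set S := (Icc 1 M).filter (fun m => Squarefree m ∧ Odd m ∧ m.Coprime d) with hS
  have hmem : ∀ m ∈ S, 1 ≤ m ∧ m ≤ M ∧ Squarefree m ∧ Odd m ∧ m.Coprime d := by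
    intro m hm
    rw [hS, mem_filter, mem_Icc] at hm
    exact ⟨hm.1.1, hm.1.2, hm.2⟩
  have hm2 : ∀ m ∈ S, m ^ 2 ≤ N0 := fun m hm =>
    (Nat.pow_le_pow_left (hmem m hm).2.1 2).trans hMN
  -- the terms
  have hterm : ∀ m ∈ S, c1 * ((K : ℝ) ^ m.primeFactors.card / m) ≤
      js (e * (d : ℤ)) (m ^ 2) * cB a β B N z (m ^ 2) := by
    intro m hm
    obtain ⟨hm1, hmM, hms, hmo, hmc⟩ := hmem m hm
    have hm1' : (0 : ℝ) < m := by exact_mod_cast hm1
    have hj : js (e * (d : ℤ)) (m ^ 2) = 1 := by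
      have := js_sq he d 1 m hmo one_ne_zero
      rw [one_mul, if_pos hmc] at this
      rw [this]
      unfold js
      simp
    rw [hj, one_mul]
    have hw := wkc k hk N0 m hms hmo (hm2 m hm)
    have hset : ∑ b ∈ (Icc 1 B).filter (fun b => b ∣ m ^ 2 ∧ m ^ 2 / b ≤ N), β b * Real.sqrt b =
        ∑ b ∈ (m ^ 2).divisors, Real.sqrt b * Gp N0 (2 * k - 2) b := by
      have e1 : ∑ b ∈ (m ^ 2).divisors, Real.sqrt b * Gp N0 (2 * k - 2) b =
          ∑ b ∈ (m ^ 2).divisors.filter (fun b => b ≤ B), β b * Real.sqrt b := by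
        rw [sum_filter]
        apply sum_congr rfl
        intro b hb
        split_ifs with hbB
        · rw [mul_comm]
        · have : Gp N0 (2 * k - 2) b = 0 := by
            by_contra hne
            exact hbB (d3 b hne).2.1
          rw [this, mul_zero]
      rw [e1]
      apply sum_congr _ (fun _ _ => rfl)
      ext b
      simp only [mem_filter, mem_Icc, Nat.mem_divisors]
      constructor
      · rintro ⟨⟨h1, h2⟩, h3, h4⟩
        exact ⟨⟨h3, by positivity⟩, h2⟩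
      · rintro ⟨⟨h1, h2⟩, h3⟩
        refine ⟨⟨Nat.pos_of_dvd_of_pos h1 (by positivity), h3⟩, h1, ?_⟩
        exact (Nat.div_le_self _ _).trans ((hm2 m hm).trans hNN)
    unfold cB
    calc c1 * ((K : ℝ) ^ m.primeFactors.card / m) = c1 / m *
          ∑ b ∈ (m ^ 2).divisors, Real.sqrt b * Gp N0 (2 * k - 2) b := by
          rw [hw]; ring
      _ = ∑ b ∈ (Icc 1 B).filter (fun b => b ∣ m ^ 2 ∧ m ^ 2 / b ≤ N),
          c1 / m * (β b * Real.sqrt b) := by
          rw [← hset, mul_sum]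
      _ ≤ _ := by
          apply sum_le_sum
          intro b hb
          rw [mem_filter, mem_Icc] at hb
          obtain ⟨⟨hb1, hbB⟩, hbd, hbN⟩ := hb
          have hb0 : (0 : ℝ) < b := by exact_mod_cast hb1
          have hq : ((m ^ 2 / b : ℕ) : ℝ) = (m : ℝ) ^ 2 / b := by
            rw [Nat.cast_div hbd hb0.ne']
            push_cast
            ring
          have hsq : 1 / Real.sqrt ((m ^ 2 / b : ℕ) : ℝ) = Real.sqrt b / m := by
            rw [hq, Real.sqrt_div (by positivity), Real.sqrt_sq hm1'.le, one_div_div]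
          have hle : ((m ^ 2 / b : ℕ) : ℝ) ^ 2 * z ≤ 1 := by
            have h1 : ((m ^ 2 / b : ℕ) : ℝ) ≤ N0 := by
              exact_mod_cast (Nat.div_le_self _ _).trans (hm2 m hm)
            calc ((m ^ 2 / b : ℕ) : ℝ) ^ 2 * z ≤ (N0 : ℝ) ^ 2 * z :=
                  mul_le_mul_of_nonneg_right (pow_le_pow_left₀ (by positivity) h1 2) hz.le
              _ ≤ 1 := hzN
          have hIG : c1 ≤ IG a (((m ^ 2 / b : ℕ) : ℝ) ^ 2 * z) :=
            (IG_one a).trans (Pool.Agent.Q153.FM.Sq.IG_anti a (by positivity) hle)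
          rw [hsq]
          calc c1 / m * (β b * Real.sqrt b) = β b * (Real.sqrt b / m * c1) := by ring
            _ ≤ β b * (Real.sqrt b / m * IG a (((m ^ 2 / b : ℕ) : ℝ) ^ 2 * z)) := by
                apply mul_le_mul_of_nonneg_left _ (d2 b)
                exact mul_le_mul_of_nonneg_left hIG (by positivity)
  -- nonnegativity
  have hnn : ∀ m ∈ (Icc 1 (N * B)).filter (fun m => Odd m ∧ IsSquare m),
      0 ≤ js (e * (d : ℤ)) m * cB a β B N z m := by
    intro m hm
    rw [mem_filter, mem_Icc] at hm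
    obtain ⟨⟨h1, h2⟩, h3, u, hu⟩ := hm
    apply mul_nonneg _ (cB_nonneg d2 B N hz m)
    have huo : Odd u := by
      rw [hu] at h3
      exact (Nat.odd_mul.1 h3).1
    have := js_sq he d 1 u huo one_ne_zero
    rw [one_mul] at this
    rw [hu, ← sq, this]
    unfold js
    simp only [jacobiSym.one_right, Int.cast_one, one_mul]
    split_ifs <;> norm_num
  have hlast : ∑ m ∈ S, js (e * (d : ℤ)) (m ^ 2) * cB a β B N z (m ^ 2) ≤
      EBS e a β B N d z := by
    unfold EBS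
    have hinj : Set.InjOn (fun m : ℕ => m ^ 2) (S : Finset ℕ) := by
      intro x _ y _ hxy
      exact Nat.pow_left_injective (by norm_num : 2 ≠ 0) hxy
    rw [← sum_image (f := fun m => js (e * (d : ℤ)) m * cB a β B N z m)
      (g := fun m : ℕ => m ^ 2) hinj]
    apply sum_le_sum_of_subset_of_nonneg
    · intro m hm
      rw [mem_image] at hm
      obtain ⟨u, hu, rfl⟩ := hm
      obtain ⟨hu1, huM, hus, huo, huc⟩ := hmem u hu
      rw [mem_filter, mem_Icc]
      refine ⟨⟨Nat.one_le_pow _ _ hu1, ?_⟩, huo.pow, ⟨u, by ring⟩⟩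
      calc u ^ 2 ≤ N := (hm2 u hu).trans hNN
        _ ≤ N * B := Nat.le_mul_of_pos_right _ hB1
    · intro m hm _
      exact hnn m hm
  have h1 := lbm M d hM hd1
  have h2 : c1 * cl * (∏ p ∈ d.primeFactors, (1 + (K : ℝ) / p))⁻¹ * Real.log M ^ K ≤
      ∑ m ∈ S, c1 * ((K : ℝ) ^ m.primeFactors.card / m) := by
    rw [← mul_sum]
    have := mul_le_mul_of_nonneg_left h1 hc10.le
    calc _ = c1 * (cl * (∏ p ∈ d.primeFactors, (1 + (K : ℝ) / p))⁻¹ * Real.log M ^ K) := by ring
      _ ≤ _ := this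
  exact h2.trans ((sum_le_sum hterm).trans hlast)

end

end Pool.Agent.Q122.MB
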