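import Pool.Agent.Q122.MB.WINc

set_option autoImplicit false

/-! Project MB: the theorem for windows of one class. -/

namespace Pool.Agent.Q122.MB

open Finset Filter Topology MeasureTheory Pool.Agent.H306R2.RZ Pool.Agent.H306R2.RG
open Pool.Agent.Q122.FM

noncomputable section

theorem gm_ex : ∃ gM : ℝ, 0 < gM ∧ ∀ ε : ℤ, (ε = 1 ∨ ε = -1) →
    0 < gm (1 / 2 + ((aS ε : ℕ) : ℝ)) ∧ gm (1 / 2 + ((aS ε : ℕ) : ℝ)) ≤ gM := by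
  have hgp : ∀ a : ℕ, 0 < gm (1 / 2 + (a : ℝ)) := by
    intro a
    unfold gm
    apply mul_pos (Real.rpow_pos_of_pos Real.pi_pos _)
    apply Real.Gamma_pos_of_pos
    positivity
  have hg1 := hgp (aS 1)
  have hg2 := hgp (aS (-1))
  refine ⟨gm (1 / 2 + ((aS 1 : ℕ) : ℝ)) + gm (1 / 2 + ((aS (-1) : ℕ) : ℝ)), by linarith, ?_⟩
  intro ε hε
  rcases hε with rfl | rfl
  · exact ⟨hg1, by linarith⟩
  · exact ⟨hg2, by linarith⟩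

theorem s1X (spl : S_SPL) (nsb : S_NSB) (ebl : S_EBL) (dp : S_DP) (rep : S_REP) (frz : S_FRZ)
    (k : ℕ) (hk : 1 ≤ k) :
    ∃ c C : ℝ, 0 < c ∧ 0 < C ∧ ∀ ε : ℤ, (ε = 1 ∨ ε = -1) → ∀ Y h N0 M : ℕ, 3 ≤ Y → 1 ≤ h → h ≤ Y →
      1 ≤ M → M ^ 2 ≤ N0 → N0 ^ (2 * k - 2) ≤ Y →
      ∑ y ∈ (range Y).filter (fun y => N0 ^ 2 ≤ 8 * (y + 1)),
        Xy ε k c C (gm (1 / 2 + (aS ε : ℝ))) h N0 M y ≤
      C * (((N0 ^ (2 * k - 2) : ℕ) : ℝ) ^ 4 * Y * Real.log Y ^ 2 * (h : ℝ) ^ (5 / 6 : ℝ)) := by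
  obtain ⟨c1, C1, hc1, hC1, hs1⟩ := s1 spl nsb ebl dp rep frz k hk
  refine ⟨c1, C1, hc1, hC1, ?_⟩
  intro ε hε Y h N0 M hY hh hhY hM hMN hBY
  unfold Xy
  exact hs1 ε hε Y h N0 M hY hh hhY hM hMN hBY

theorem win_fix {k : ℕ} (hk : 1 ≤ k) {ε1 : ℝ} (h0 : 0 < ε1) (h18 : ε1 ≤ 1 / 8) {Y h N0 M : ℕ}
    (hpf : PF k ε1 Y h N0 M) {ε : ℤ} {c1 C1 cG CG CU g0 gM : ℝ} (hc1 : 0 < c1) (hC1 : 0 < C1)
    (hcG : 0 < cG) (hCG : 0 < CG) (hCU : 0 < CU) (hg00 : 0 < g0) (hg0M : g0 ≤ gM)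
    (hU : ∀ y h N0 : ℕ, 1 ≤ N0 →
      ∑ d ∈ (Ioc y (y + h)).filter (fun d => d % 8 = 1), DD (2 * ε) N0 d ^ (2 * k) ≤
        CU * (h * (1 + Real.log N0) ^ (k * (k + 1) / 2) + (N0 : ℝ) ^ (4 * k)))
    (e1 : 1 / (c1 * cG * (ε1 / (96 * k) / 4) ^ (k * (k + 1) / 2) / 4) ≤ Real.log Y)
    (e2 : C1 ≤ (Y : ℝ) ^ (1 / 8 : ℝ)) (e3 : 3 ≤ (Y : ℝ) ^ (1 / 4 : ℝ))
    (e4 : 6 * CG ≤ (Y : ℝ) ^ (ε1 / 4))
    (e5 : 6 * C1 * (1 + Real.log (Y : ℝ)) ^ 2 ≤ (Y : ℝ) ^ (ε1 / 24))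
    (hsum : ∑ y ∈ (range Y).filter (fun y => N0 ^ 2 ≤ 8 * (y + 1)), Xy ε k c1 C1 g0 h N0 M y ≤
      C1 * (((N0 ^ (2 * k - 2) : ℕ) : ℝ) ^ 4 * Y * Real.log Y ^ 2 * (h : ℝ) ^ (5 / 6 : ℝ)))
    (hGY : (((range Y).filter (fun y => GY (k * (k + 1) / 2) y h < cG * h)).card : ℝ) ≤
      CG * Y / Real.sqrt h) :
    (((range Y).filter (fun y => mom ε k y h <
      (4 * (c1 * cG * (ε1 / (96 * k) / 4) ^ (k * (k + 1) / 2) / 4) / gM) ^ k /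
      (CU * (2 ^ (k * (k + 1) / 2) + 1)) ^ (k - 1) * (h : ℝ) *
        Real.log Y ^ (k * (k + 1) / 2))).card : ℝ) ≤ (Y : ℝ) ^ (1 - ε1 / 24) := by
  have hh0 : (0 : ℝ) < h := by exact_mod_cast hpf.h1
  have hsub : (range Y).filter (fun y => mom ε k y h <
      (4 * (c1 * cG * (ε1 / (96 * k) / 4) ^ (k * (k + 1) / 2) / 4) / gM) ^ k /
      (CU * (2 ^ (k * (k + 1) / 2) + 1)) ^ (k - 1) * (h : ℝ) *
        Real.log Y ^ (k * (k + 1) / 2)) ⊆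
      ((range Y).filter (fun y => (y + 1) ^ 2 ≤ Y) ∪
      (range Y).filter (fun y => GY (k * (k + 1) / 2) y h < cG * h)) ∪
      ((range Y).filter (fun y => N0 ^ 2 ≤ 8 * (y + 1))).filter
        (fun y => (h : ℝ) < Xy ε k c1 C1 g0 h N0 M y) := by
    intro y hy
    rw [mem_filter] at hy
    by_cases c1' : (y + 1) ^ 2 ≤ Y
    · rw [mem_union, mem_union]
      exact Or.inl (Or.inl (mem_filter.2 ⟨hy.1, c1'⟩))
    by_cases c2' : GY (k * (k + 1) / 2) y h < cG * h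
    · rw [mem_union, mem_union]
      exact Or.inl (Or.inr (mem_filter.2 ⟨hy.1, c2'⟩))
    have hn1' : Y < (y + 1) ^ 2 := not_le.1 c1'
    have hn2' : cG * h ≤ GY (k * (k + 1) / 2) y h := not_lt.1 c2'
    have hyP : y ∈ (range Y).filter (fun y => N0 ^ 2 ≤ 8 * (y + 1)) := by
      rw [mem_filter]
      refine ⟨hy.1, ?_⟩
      have hY0 : (0 : ℝ) ≤ Y := by positivity
      have hysq : (Y : ℝ) < ((y : ℝ) + 1) ^ 2 := by exact_mod_cast hn1'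
      have hyhalf : (Y : ℝ) ^ (1 / 2 : ℝ) ≤ (y : ℝ) + 1 := by
        calc (Y : ℝ) ^ (1 / 2 : ℝ) ≤ (((y : ℝ) + 1) ^ 2) ^ (1 / 2 : ℝ) :=
              Real.rpow_le_rpow hY0 hysq.le (by norm_num)
          _ = (y : ℝ) + 1 := by
              rw [← Real.rpow_natCast, ← Real.rpow_mul (by positivity)]
              norm_num
      have : (N0 : ℝ) ^ 2 ≤ 8 * ((y : ℝ) + 1) := by
        have := hpf.N2
        have h3 : (0 : ℝ) ≤ y := by positivity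
        linarith
      exact_mod_cast this
    by_cases c3' : (h : ℝ) < Xy ε k c1 C1 g0 h N0 M y
    · rw [mem_union]
      exact Or.inr (mem_filter.2 ⟨hyP, c3'⟩)
    · exfalso
      have := good_y hk h0 h18 hpf hc1 hcG hCU hg00 hg0M hU e1 e2 hn1' hn2' (not_lt.1 c3')
      exact absurd hy.2 (not_lt.2 this)
  have hcard1 := card_le_card hsub
  have hcard2 := card_union_le ((range Y).filter (fun y => (y + 1) ^ 2 ≤ Y) ∪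
      (range Y).filter (fun y => GY (k * (k + 1) / 2) y h < cG * h))
      (((range Y).filter (fun y => N0 ^ 2 ≤ 8 * (y + 1))).filter
        (fun y => (h : ℝ) < Xy ε k c1 C1 g0 h N0 M y))
  have hcard3 := card_union_le ((range Y).filter (fun y => (y + 1) ^ 2 ≤ Y))
      ((range Y).filter (fun y => GY (k * (k + 1) / 2) y h < cG * h))
  have hG0 := hcard1.trans (hcard2.trans (Nat.add_le_add_right hcard3 _))
  have hG1 := (Nat.cast_le (α := ℝ)).2 hG0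
  rw [Nat.cast_add, Nat.cast_add] at hG1
  refine hG1.trans (total (CG := CG) (C1 := C1) h0 h18 hpf.Y3 e3 e4 e5 (cardA Y) ?_ ?_)
  · exact hGY.trans (cardB hCG hpf.Y3 hpf.hlo)
  · have q0 := card_markov _ (Xy ε k c1 C1 g0 h N0 M) (fun y _ => le_max_left _ _) h hh0 _ hsum
      (fun y => (h : ℝ) < Xy ε k c1 C1 g0 h N0 M y) (fun y _ hy => hy.le)
    exact q0.trans (cardC hC1 hpf.Y3 hpf.h1 hpf.hlo hpf.B1)

theorem win (spl : S_SPL) (nsb : S_NSB) (ebl : S_EBL) (dp : S_DP) (rep : S_REP) (frz : S_FRZ)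
    (gd : S_GD) (wa1 : S_WA1) (upm : S_UPM)
    (k : ℕ) (hk : 1 ≤ k) (ε1 : ℝ) (h0 : 0 < ε1) (h18 : ε1 ≤ 1 / 8) :
    ∃ c : ℝ, 0 < c ∧ ∃ Y0 : ℕ, ∀ ε : ℤ, (ε = 1 ∨ ε = -1) → ∀ Y : ℕ, Y0 ≤ Y →
      (((range Y).filter (fun y => mom ε k y ⌊(Y : ℝ) ^ ε1⌋₊ <
        c * (⌊(Y : ℝ) ^ ε1⌋₊ : ℝ) * Real.log Y ^ (k * (k + 1) / 2))).card : ℝ) ≤
        (Y : ℝ) ^ (1 - ε1 / 24) := by
  obtain ⟨c1, C1, hc1, hC1, hs1⟩ := s1X spl nsb ebl dp rep frz k hk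
  obtain ⟨cG, CG, hcG, hCG, hGY⟩ := GY_lower gd wa1 (k * (k + 1) / 2)
  obtain ⟨CU, hCU, hU⟩ := upm k hk
  obtain ⟨gM, hgM0, hgM⟩ := gm_ex
  have hk' : (1 : ℝ) ≤ k := by exact_mod_cast hk
  have hc5 : 0 < c1 * cG * (ε1 / (96 * k) / 4) ^ (k * (k + 1) / 2) / 4 := by positivity
  refine ⟨(4 * (c1 * cG * (ε1 / (96 * k) / 4) ^ (k * (k + 1) / 2) / 4) / gM) ^ k /
      (CU * (2 ^ (k * (k + 1) / 2) + 1)) ^ (k - 1), by positivity, ?_⟩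
  have p1 := params k hk ε1 h0 h18
  have p2 := evT (1 / (c1 * cG * (ε1 / (96 * k) / 4) ^ (k * (k + 1) / 2) / 4))
  have p3 := evlog C1 0 (show (0 : ℝ) < 1 / 8 by norm_num)
  have p4 := evlog 3 0 (show (0 : ℝ) < 1 / 4 by norm_num)
  have p5 := evlog (6 * CG) 0 (show (0 : ℝ) < ε1 / 4 by positivity)
  have p6 := evlog (6 * C1) 2 (show (0 : ℝ) < ε1 / 24 by positivity)
  obtain ⟨Y0, hY0⟩ := eventually_atTop.1 (p1.and (p2.and (p3.and (p4.and (p5.and p6)))))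
  refine ⟨Y0, ?_⟩
  intro ε hε Y hY
  obtain ⟨hpf, e1, e2, e3, e4, e5⟩ := hY0 Y hY
  rw [pow_zero, mul_one] at e2 e3 e4
  have he' : (2 * ε = 1 ∨ 2 * ε = -1 ∨ 2 * ε = 2 ∨ 2 * ε = -2) := by
    rcases hε with rfl | rfl
    · right; right; left; rfl
    · right; right; right; rfl
  have hBY : ⌊(Y : ℝ) ^ (ε1 / (96 * k))⌋₊ ^ (2 * k - 2) ≤ Y := by
    have hY1 : (1 : ℝ) ≤ Y := by
      have : (3 : ℝ) ≤ Y := by exact_mod_cast hpf.Y3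
      linarith
    have h1 := hpf.B1
    have h2 : (Y : ℝ) ^ (ε1 / 48) ≤ Y := by
      calc (Y : ℝ) ^ (ε1 / 48) ≤ (Y : ℝ) ^ (1 : ℝ) :=
            Real.rpow_le_rpow_of_exponent_le hY1 (by linarith)
        _ = Y := Real.rpow_one _
    exact_mod_cast h1.trans h2
  exact win_fix hk h0 h18 hpf hc1 hC1 hcG hCG hCU (hgM ε hε).1 (hgM ε hε).2
    (fun y h N0 hN => hU (2 * ε) he' 1 (by norm_num) (by decide) y h N0 hN) e1 e2 e3 e4 e5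
    (hs1 ε hε Y _ _ _ hpf.Y3 hpf.h1 hpf.hY hpf.M1 hpf.MN hBY)
    (hGY Y _ hpf.h1 hpf.hY hpf.hlog)

end

end Pool.Agent.Q122.MB
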