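import Pool.Agent.Q122.MB.Stm
import Pool.Agent.Q122.FM.NS

set_option autoImplicit false

/-! Project MB: job NSB. -/

namespace Pool.Agent.Q122.MB

open Finset Filter Topology MeasureTheory Pool.Agent.H306R2.RZ Pool.Agent.H306R2.RG
open Pool.Agent.Q122.FM

noncomputable section

/-- decomposition of a sum over squarefree numbers -/
theorem sqf_split (EE : ℕ → ℝ) (A c y h : ℕ) (hco : Odd c) :
    |∑ d ∈ (Ioc y (y + h)).filter (fun d => d % 8 = c ∧ Squarefree d), EE d| ≤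
      ∑ a ∈ (Icc 1 A).filter (fun a => Odd a),
        |∑ d ∈ (Ioc y (y + h)).filter (fun d => a ^ 2 ∣ d ∧ d % 8 = c), EE d| +
      ∑ d ∈ (Ioc y (y + h)).filter (fun d => d % 8 = c), |FM.RA A d| * |EE d| := by
  have e1 : ∑ d ∈ (Ioc y (y + h)).filter (fun d => d % 8 = c ∧ Squarefree d), EE d =
      ∑ d ∈ (Ioc y (y + h)).filter (fun d => d % 8 = c),
        ((if Squarefree d then 1 else 0) * EE d) := by
    rw [← filter_filter, sum_filter (fun d => Squarefree d)]
    apply sum_congr rfl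
    intro d _
    split_ifs <;> ring
  have e2 : ∑ d ∈ (Ioc y (y + h)).filter (fun d => d % 8 = c),
        ((if Squarefree d then 1 else 0) * EE d) =
      ∑ d ∈ (Ioc y (y + h)).filter (fun d => d % 8 = c),
        (∑ a ∈ (Icc 1 A).filter (fun a => a ^ 2 ∣ d),
          ((ArithmeticFunction.moebius a : ℤ) : ℝ)) * EE d +
      ∑ d ∈ (Ioc y (y + h)).filter (fun d => d % 8 = c), FM.RA A d * EE d := by
    rw [← sum_add_distrib]
    apply sum_congr rfl
    intro d _
    unfold FM.RA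
    ring
  have e3 : ∑ d ∈ (Ioc y (y + h)).filter (fun d => d % 8 = c),
        (∑ a ∈ (Icc 1 A).filter (fun a => a ^ 2 ∣ d),
          ((ArithmeticFunction.moebius a : ℤ) : ℝ)) * EE d =
      ∑ a ∈ Icc 1 A, ((ArithmeticFunction.moebius a : ℤ) : ℝ) *
        ∑ d ∈ (Ioc y (y + h)).filter (fun d => a ^ 2 ∣ d ∧ d % 8 = c), EE d := by
    have f1 : ∀ d ∈ (Ioc y (y + h)).filter (fun d => d % 8 = c),
        (∑ a ∈ (Icc 1 A).filter (fun a => a ^ 2 ∣ d),
          ((ArithmeticFunction.moebius a : ℤ) : ℝ)) * EE d =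
        ∑ a ∈ Icc 1 A, if a ^ 2 ∣ d then ((ArithmeticFunction.moebius a : ℤ) : ℝ) * EE d
          else 0 := by
      intro d _
      rw [sum_filter, sum_mul]
      apply sum_congr rfl
      intro a _
      split_ifs <;> ring
    rw [sum_congr rfl f1, sum_comm]
    apply sum_congr rfl
    intro a _
    rw [← sum_filter, filter_filter, mul_sum]
    apply sum_congr _ (fun _ _ => rfl)
    ext d
    simp only [mem_filter]
    tauto
  rw [e1, e2, e3]
  refine (abs_add_le _ _).trans (add_le_add ?_ ?_)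
  · refine (abs_sum_le_sum_abs _ _).trans ?_
    rw [sum_filter]
    apply sum_le_sum
    intro a ha
    rw [abs_mul]
    have hμ : |((ArithmeticFunction.moebius a : ℤ) : ℝ)| ≤ 1 := by
      exact_mod_cast ArithmeticFunction.abs_moebius_le_one
    split_ifs with hao
    · exact mul_le_of_le_one_left (abs_nonneg _) hμ
    · have : (Ioc y (y + h)).filter (fun d => a ^ 2 ∣ d ∧ d % 8 = c) = ∅ := by
        apply filter_eq_empty_iff.2
        rintro d _ ⟨hd1, hd2⟩
        have h2 : 2 ∣ a := (Nat.not_odd_iff_even.1 hao).two_dvd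
        have h3 : 2 ∣ d := (h2.trans (Dvd.intro_left _ (by ring : a * a = a ^ 2))).trans hd1
        obtain ⟨k, hk⟩ := hco
        omega
      rw [this]
      simp
  · refine (abs_sum_le_sum_abs _ _).trans (le_of_eq ?_)
    apply sum_congr rfl
    intro d _
    rw [abs_mul]

theorem t_NSB (j1 : S_J1B) (j2 : S_J2B) : S_NSB := by
  obtain ⟨C1, hC1, j1⟩ := j1
  obtain ⟨C2, hC2, j2⟩ := j2
  refine ⟨2 * C1 + C2, by positivity, ?_⟩
  intro a ha e he β hβ B hB hβB c hc hco Y h N hY hh hhY hBY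
  have hh' : (1 : ℝ) ≤ h := by exact_mod_cast hh
  have hh0 : (0 : ℝ) < h := by linarith
  set T : ℝ := (h : ℝ) ^ (1 / 3 : ℝ) with hT
  have hT1 : 1 ≤ T := Real.one_le_rpow hh' (by norm_num)
  set A : ℕ := ⌈T⌉₊ with hA
  have hAT : T ≤ A := Nat.le_ceil T
  have hA1 : 1 ≤ A := by
    have : (1 : ℝ) ≤ A := hT1.trans hAT
    exact_mod_cast this
  have hA2 : (A : ℝ) ≤ 2 * T := by
    have := Nat.ceil_lt_add_one (show 0 ≤ T by linarith)
    linarith
  set EE : ℕ → ℕ → ℝ := fun y d => EBN e a β B N d (1 / (8 * ((y : ℝ) + 1))) with hEE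
  have key := fun y => sqf_split (EE y) A c y h hco
  refine (sum_le_sum fun y _ => key y).trans ?_
  rw [sum_add_distrib, sum_comm]
  have hJ2 := j2 a ha e he β hβ B hB hβB c hc hco A Y h N hA1 hY hh hhY hBY
  set P : ℝ := (B : ℝ) ^ 4 * Y * Real.log Y ^ 2 with hP
  have hP0 : 0 ≤ P := by positivity
  have hJ1 : ∑ q ∈ (Icc 1 A).filter (fun a => Odd a), ∑ y ∈ range Y,
      |∑ d ∈ (Ioc y (y + h)).filter (fun d => q ^ 2 ∣ d ∧ d % 8 = c), EE y d| ≤
      C1 * (P * Real.sqrt h * A) := by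
    calc _ ≤ ∑ q ∈ (Icc 1 A).filter (fun a => Odd a),
          C1 * ((B : ℝ) ^ 4 * Real.sqrt h * Y * Real.log Y ^ 2) := by
          apply sum_le_sum
          intro q hq
          rw [mem_filter] at hq
          exact j1 a ha e he β hβ B hB hβB c hc hco q hq.2 Y h N hY hh hBY
      _ ≤ ∑ q ∈ Icc 1 A, C1 * ((B : ℝ) ^ 4 * Real.sqrt h * Y * Real.log Y ^ 2) := by
          apply Finset.sum_le_sum_of_subset_of_nonneg (filter_subset _ _)
          intro a _ _
          positivity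
      _ = C1 * (P * Real.sqrt h * A) := by
          rw [sum_const, Nat.card_Icc, nsmul_eq_mul, Nat.add_sub_cancel, hP]
          ring
  refine (add_le_add hJ1 hJ2).trans ?_
  have hTpos : 0 < T := by linarith
  have b2 : Real.sqrt h * A ≤ 2 * (h : ℝ) ^ (5 / 6 : ℝ) := by
    calc Real.sqrt h * A ≤ Real.sqrt h * (2 * T) :=
          mul_le_mul_of_nonneg_left hA2 (by positivity)
      _ = 2 * ((h : ℝ) ^ (1 / 2 : ℝ) * (h : ℝ) ^ (1 / 3 : ℝ)) := by
          rw [Real.sqrt_eq_rpow, hT]; ring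
      _ = _ := by
          rw [← Real.rpow_add hh0]
          norm_num
  have b3 : (h : ℝ) / Real.sqrt A ≤ (h : ℝ) ^ (5 / 6 : ℝ) := by
    have c1 : Real.sqrt T ≤ Real.sqrt A := Real.sqrt_le_sqrt hAT
    have c2 : Real.sqrt T = (h : ℝ) ^ (1 / 6 : ℝ) := by
      rw [Real.sqrt_eq_rpow, hT, ← Real.rpow_mul hh0.le]
      norm_num
    have c3 : 0 < Real.sqrt T := Real.sqrt_pos.2 hTpos
    calc (h : ℝ) / Real.sqrt A ≤ (h : ℝ) / Real.sqrt T :=
          div_le_div_of_nonneg_left (by positivity) c3 c1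
      _ = _ := by
          rw [div_eq_iff c3.ne', c2, ← Real.rpow_add hh0]
          norm_num
  have f1 : C1 * (P * Real.sqrt h * A) ≤ 2 * C1 * (P * (h : ℝ) ^ (5 / 6 : ℝ)) := by
    calc C1 * (P * Real.sqrt h * A) = C1 * P * (Real.sqrt h * A) := by ring
      _ ≤ C1 * P * (2 * (h : ℝ) ^ (5 / 6 : ℝ)) := mul_le_mul_of_nonneg_left b2 (by positivity)
      _ = _ := by ring
  have f2 : C2 * ((B : ℝ) ^ 4 * h * Y * Real.log Y ^ 2 / Real.sqrt A) ≤
      C2 * (P * (h : ℝ) ^ (5 / 6 : ℝ)) := by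
    calc C2 * ((B : ℝ) ^ 4 * h * Y * Real.log Y ^ 2 / Real.sqrt A)
        = C2 * P * (h / Real.sqrt A) := by rw [hP]; ring
      _ ≤ C2 * P * (h : ℝ) ^ (5 / 6 : ℝ) := mul_le_mul_of_nonneg_left b3 (by positivity)
      _ = _ := by ring
  calc _ ≤ 2 * C1 * (P * (h : ℝ) ^ (5 / 6 : ℝ)) + C2 * (P * (h : ℝ) ^ (5 / 6 : ℝ)) :=
        add_le_add f1 f2
    _ = _ := by rw [hP]; ring

end

end Pool.Agent.Q122.MB
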