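import Pool.Agent.Q122.MB.Stm
import Pool.Agent.Q275.FM.FRZ

set_option autoImplicit false

/-! Project MB: job UPM. -/

namespace Pool.Agent.Q122.MB

open Finset Filter Topology MeasureTheory Pool.Agent.H306R2.RZ Pool.Agent.H306R2.RG
open Pool.Agent.Q122.FM

noncomputable section

theorem t_UPM (dp : S_DP) (ch : S_CH) (sqx : S_SQX) : S_UPM := by
  intro k hk
  obtain ⟨C, hC, sqx⟩ := sqx k hk
  refine ⟨C + 8, by positivity, ?_⟩
  intro e he c hc hco y h N0 hN0
  obtain ⟨d1, d2, d3, d4⟩ := dp N0 (2 * k) hN0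
  set D := (Ioc y (y + h)).filter (fun d => d % 8 = c) with hD
  have hcard : (D.card : ℝ) ≤ h := by
    have : D.card ≤ h := by
      refine (card_filter_le _ _).trans ?_
      rw [Nat.card_Ioc]; omega
    exact_mod_cast this
  have e1 : ∑ d ∈ D, DD e N0 d ^ (2 * k) =
      ∑ m ∈ (Icc 1 (N0 ^ (2 * k))).filter (fun m => Odd m),
        Gp N0 (2 * k) m * ∑ d ∈ D, js (e * (d : ℤ)) m := by
    simp_rw [d1 e, mul_sum]
    rw [sum_comm]
  rw [e1, ← sum_filter_add_sum_filter_not _ (fun m => IsSquare m), filter_filter, filter_filter]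
  have hlog : 0 ≤ Real.log (N0 : ℝ) := Real.log_nonneg (by exact_mod_cast hN0)
  have p1 : ∑ m ∈ (Icc 1 (N0 ^ (2 * k))).filter (fun m => Odd m ∧ IsSquare m),
        Gp N0 (2 * k) m * ∑ d ∈ D, js (e * (d : ℤ)) m ≤
      C * (h * (1 + Real.log N0) ^ (k * (k + 1) / 2)) := by
    calc _ ≤ ∑ m ∈ (Icc 1 (N0 ^ (2 * k))).filter (fun m => Odd m ∧ IsSquare m),
          Gp N0 (2 * k) m * h := by
          apply sum_le_sum
          intro m _
          apply mul_le_mul_of_nonneg_left _ (d2 m)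
          calc ∑ d ∈ D, js (e * (d : ℤ)) m ≤ ∑ d ∈ D, (1 : ℝ) := by
                apply sum_le_sum
                intro d _
                exact (le_abs_self _).trans (Pool.Agent.Q275.FM.js_abs _ _)
            _ = D.card := by simp
            _ ≤ h := hcard
      _ = (∑ m ∈ (Icc 1 (N0 ^ (2 * k))).filter (fun m => Odd m ∧ IsSquare m),
          Gp N0 (2 * k) m) * h := by rw [sum_mul]
      _ ≤ (C * (1 + Real.log N0) ^ (k * (k + 1) / 2)) * h :=
          mul_le_mul_of_nonneg_right (sqx N0 hN0) (by positivity)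
      _ = _ := by ring
  have p2 : ∑ m ∈ (Icc 1 (N0 ^ (2 * k))).filter (fun m => Odd m ∧ ¬ IsSquare m),
        Gp N0 (2 * k) m * ∑ d ∈ D, js (e * (d : ℤ)) m ≤ 8 * (N0 : ℝ) ^ (4 * k) := by
    calc _ ≤ ∑ m ∈ (Icc 1 (N0 ^ (2 * k))).filter (fun m => Odd m ∧ ¬ IsSquare m),
          Gp N0 (2 * k) m * (8 * (N0 : ℝ) ^ (2 * k)) := by
          apply sum_le_sum
          intro m hm
          rw [mem_filter, mem_Icc] at hm
          apply mul_le_mul_of_nonneg_left _ (d2 m)
          refine (le_abs_self _).trans ((ch e he c hc hco m hm.2.1 hm.2.2 y h).trans ?_)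
          apply mul_le_mul_of_nonneg_left _ (by norm_num)
          exact_mod_cast hm.1.2
      _ ≤ ∑ m ∈ Icc 1 (N0 ^ (2 * k)), Gp N0 (2 * k) m * (8 * (N0 : ℝ) ^ (2 * k)) := by
          apply sum_le_sum_of_subset_of_nonneg (filter_subset _ _)
          intro m _ _
          exact mul_nonneg (d2 m) (by positivity)
      _ = (∑ m ∈ Icc 1 (N0 ^ (2 * k)), Gp N0 (2 * k) m) * (8 * (N0 : ℝ) ^ (2 * k)) := by
          rw [sum_mul]
      _ ≤ (N0 : ℝ) ^ (2 * k) * (8 * (N0 : ℝ) ^ (2 * k)) :=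
          mul_le_mul_of_nonneg_right d4 (by positivity)
      _ = 8 * (N0 : ℝ) ^ (4 * k) := by ring
  have q1 : 0 ≤ (h : ℝ) * (1 + Real.log N0) ^ (k * (k + 1) / 2) := by positivity
  have q2 : 0 ≤ (N0 : ℝ) ^ (4 * k) := by positivity
  nlinarith

end

end Pool.Agent.Q122.MB
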