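import Pool.Agent.Q122.FM.All
import Pool.Agent.Q122.MB.NSB
import Pool.Agent.Q122.MB.UPM
import Pool.Agent.Q122.MB.EBL
import Pool.Agent.Q122.MB.MBF
import Pool.Agent.Q65.MB.SPL
import Pool.Agent.Q65.MB.KBI
import Pool.Agent.Q40.MB.J1B
import Pool.Agent.Q40.MB.J2B
import Pool.Agent.Q65.MB.CH
import Pool.Agent.Q65.MB.DP
import Pool.Agent.Q177.MB.SQX
import Pool.Agent.Q65.MB.WKC
import Pool.Agent.Q162.MB.LBM
import Pool.Agent.Q162.MB.GD

set_option autoImplicit false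

/-! Project MB: all the statements, without hypotheses. -/

namespace Pool.Agent.Q122.MB

open Pool.Agent.Q122

theorem spl : S_SPL := Pool.Agent.Q65.MB.SPL.t_SPL
theorem kbi : S_KBI := Pool.Agent.Q65.MB.KBI.t_KBI
theorem j1b : S_J1B := Pool.Agent.Q40.MB.t_J1B kbi
theorem j2b : S_J2B := Pool.Agent.Q40.MB.t_J2B kbi
theorem nsb : S_NSB := t_NSB j1b j2b
theorem ch : S_CH := Pool.Agent.Q65.MB.CH.t_CH
theorem dp : S_DP := Pool.Agent.Q65.MB.DP.t_DP
theorem sqx : S_SQX := Pool.Agent.Q177.MB.t_SQX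
theorem wkc : S_WKC := Pool.Agent.Q65.MB.WKC.t_WKC
theorem lbm : S_LBM := Pool.Agent.Q162.MB.t_LBM
theorem gd : S_GD := Pool.Agent.Q162.MB.t_GD
theorem upm : S_UPM := t_UPM dp ch sqx
theorem ebl : S_EBL := t_EBL dp wkc lbm
theorem mb : S_MB := t_MB spl nsb ebl dp FM.rep FM.frz gd FM.wa1 upm FM.fdd

end Pool.Agent.Q122.MB
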