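import Pool.Agent.Q122.MB.Stm
import Pool.Agent.Q122.FM.CLSb

set_option autoImplicit false

/-! Project MB: lower bound for the twisted first moment in almost all windows. -/

namespace Pool.Agent.Q122.MB

open Finset Filter Topology MeasureTheory Pool.Agent.H306R2.RZ Pool.Agent.H306R2.RG
open Pool.Agent.Q122.FM

noncomputable section

/-- the squarefree `d ≡ 1 (8)` in the window -/
def wi (y h : ℕ) : Finset ℕ := (Ioc y (y + h)).filter (fun d => d % 8 = 1 ∧ Squarefree d)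

/-- parity -/
def aS (ε : ℤ) : ℕ := if ε = 1 then 0 else 1

def PK (K d : ℕ) : ℝ := (∏ p ∈ d.primeFactors, (1 + (K : ℝ) / p))⁻¹

def GY (K y h : ℕ) : ℝ := ∑ d ∈ wi y h, PK K d

def FY (ε : ℤ) (k N0 y h : ℕ) : ℝ :=
  ∑ d ∈ wi y h, LLg (F8 ε) d (1 / 2) * DD (2 * ε) N0 d ^ (2 * k - 2)

theorem RB_eq (dp : S_DP) (e : ℤ) (N0 j d : ℕ) (hN0 : 1 ≤ N0) :
    RB e (Gp N0 j) (N0 ^ j) d = DD e N0 d ^ j := by
  rw [(dp N0 j hN0).1 e d]
  rfl

theorem RB_le (dp : S_DP) (e : ℤ) (N0 j d : ℕ) (hN0 : 1 ≤ N0) :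
    |RB e (Gp N0 j) (N0 ^ j) d| ≤ ((N0 ^ j : ℕ) : ℝ) := by
  obtain ⟨_, d2, _, d4⟩ := dp N0 j hN0
  unfold RB
  refine (abs_sum_le_sum_abs _ _).trans ?_
  calc _ ≤ ∑ b ∈ (Icc 1 (N0 ^ j)).filter (fun b => Odd b), Gp N0 j b := by
        apply sum_le_sum
        intro b _
        rw [abs_mul, abs_of_nonneg (d2 b)]
        apply mul_le_of_le_one_right (d2 b)
        unfold js
        rcases jacobiSym.trichotomy (e * (d : ℤ)) b with h | h | h <;> rw [h] <;> simp
    _ ≤ ∑ b ∈ Icc 1 (N0 ^ j), Gp N0 j b :=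
        sum_le_sum_of_subset_of_nonneg (filter_subset _ _) fun b _ _ => d2 b
    _ ≤ _ := by push_cast; exact d4

theorem s1 (spl : S_SPL) (nsb : S_NSB) (ebl : S_EBL) (dp : S_DP) (rep : S_REP) (frz : S_FRZ)
    (k : ℕ) (hk : 1 ≤ k) :
    ∃ c C : ℝ, 0 < c ∧ 0 < C ∧ ∀ ε : ℤ, (ε = 1 ∨ ε = -1) → ∀ Y h N0 M : ℕ, 3 ≤ Y → 1 ≤ h → h ≤ Y →
      1 ≤ M → M ^ 2 ≤ N0 → N0 ^ (2 * k - 2) ≤ Y →
      ∑ y ∈ (range Y).filter (fun y => N0 ^ 2 ≤ 8 * (y + 1)),
        max 0 (c * Real.log M ^ (k * (k + 1) / 2) * GY (k * (k + 1) / 2) y h -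
          C * ((N0 ^ (2 * k - 2) : ℕ) : ℝ) * h ^ 2 * ((y : ℝ) + 1) ^ (-(3 / 4) : ℝ) -
          gm (1 / 2 + (aS ε : ℝ)) / 2 * FY ε k N0 y h) ≤
      C * (((N0 ^ (2 * k - 2) : ℕ) : ℝ) ^ 4 * Y * Real.log Y ^ 2 * (h : ℝ) ^ (5 / 6 : ℝ)) := by
  obtain ⟨Cn, hCn, nsb⟩ := nsb
  obtain ⟨c, hc, ebl⟩ := ebl k hk
  obtain ⟨Cf, hCf, frz⟩ := frz
  refine ⟨c, 8 * Cf + Cn, hc, by positivity, ?_⟩
  intro ε hε Y h N0 M hY hh hhY hM hMN hBY
  have hN0 : 1 ≤ N0 := le_trans (Nat.one_le_pow _ _ hM) hMN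
  obtain ⟨d1, d2, d3, d4⟩ := dp N0 (2 * k - 2) hN0
  set β : ℕ → ℝ := Gp N0 (2 * k - 2) with hβ
  set B : ℕ := N0 ^ (2 * k - 2) with hB
  have hB1 : 1 ≤ B := Nat.one_le_pow _ _ hN0
  set K : ℕ := k * (k + 1) / 2 with hK
  set e : ℤ := 2 * ε with he
  have he' : e = 1 ∨ e = -1 ∨ e = 2 ∨ e = -2 := by
    rcases hε with rfl | rfl <;> simp [he]
  have ha : aS ε = 0 ∨ aS ε = 1 := by
    unfold aS; split_ifs <;> simp
  have hfam : Fam (F8 ε) := ⟨ε, hε, Or.inl rfl⟩
  have hpar : par (F8 ε) = ⟨e, 8, aS ε, 0⟩ := rfl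
  have hok : (⟨e, 8, aS ε, 0⟩ : Par).ok := by
    rw [← hpar]; exact par_ok hfam
  set p : Par := ⟨e, 8, aS ε, 0⟩ with hp
  set g0 := gm (1 / 2 + (aS ε : ℝ)) with hg0
  set zy : ℕ → ℝ := fun y => 1 / (8 * ((y : ℝ) + 1)) with hzy
  have hzy0 : ∀ y, 0 < zy y := fun y => by simp only [hzy]; positivity
  have hzy1 : ∀ y, zy y ≤ 1 := by
    intro y
    simp only [hzy]
    rw [div_le_one (by positivity)]
    have : (0 : ℝ) ≤ y := by positivity
    linarith
  have hmem : ∀ y, ∀ d ∈ wi y h, Odd d ∧ Squarefree d ∧ y + 1 ≤ d ∧ d ≤ y + h := by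
    intro y d hd
    simp only [wi, mem_filter, mem_Ioc] at hd
    exact ⟨Nat.odd_iff.2 (by omega), hd.2.2, by omega, hd.1.2⟩
  set SN : ℕ → ℕ → ℝ := fun N y => ∑ d ∈ wi y h, RB e β B d *
    (EN p N d (1 / (8 * (d : ℝ))) + ES p N d (1 / (8 * (d : ℝ)))) with hSN
  set P := (range Y).filter (fun y => N0 ^ 2 ≤ 8 * (y + 1)) with hP
  have hcardw : ∀ y, ((wi y h).card : ℝ) ≤ h := by
    intro y
    have : (wi y h).card ≤ h := by
      refine (card_filter_le _ _).trans ?_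
      rw [Nat.card_Ioc]; omega
    exact_mod_cast this
  -- for every N
  have key : ∀ N, N0 ≤ N → ∑ y ∈ P, max 0 (c * Real.log M ^ K * GY K y h -
      (8 * Cf + Cn) * (B : ℝ) * h ^ 2 * ((y : ℝ) + 1) ^ (-(3 / 4) : ℝ) - SN N y) ≤
      Cn * ((B : ℝ) ^ 4 * Y * Real.log Y ^ 2 * (h : ℝ) ^ (5 / 6 : ℝ)) := by
    intro N hN
    have hN1 : 1 ≤ N := hN0.trans hN
    have h1 : ∀ y ∈ P, max 0 (c * Real.log M ^ K * GY K y h -
        (8 * Cf + Cn) * (B : ℝ) * h ^ 2 * ((y : ℝ) + 1) ^ (-(3 / 4) : ℝ) - SN N y) ≤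
        |∑ d ∈ wi y h, EBN e (aS ε) β B N d (zy y)| := by
      intro y hy
      rw [hP, mem_filter, mem_range] at hy
      apply max_le (abs_nonneg _)
      have hNz : (N0 : ℝ) ^ 2 * zy y ≤ 1 := by
        simp only [hzy]
        rw [mul_one_div, div_le_one (by positivity)]
        exact_mod_cast hy.2
      -- split
      have e1 : SN N y = ∑ d ∈ wi y h, RB e β B d *
          ((EN p N d (1 / (8 * (d : ℝ))) + ES p N d (1 / (8 * (d : ℝ)))) -
            (EN p N d (zy y) + ES p N d (zy y))) +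
          (∑ d ∈ wi y h, EBN e (aS ε) β B N d (zy y) +
            ∑ d ∈ wi y h, EBS e (aS ε) β B N d (zy y)) := by
        simp only [hSN]
        rw [← sum_add_distrib, ← sum_add_distrib]
        apply sum_congr rfl
        intro d _
        rw [spl e (aS ε) β B N d (zy y) hN1]
        ring
      have e2 : -(8 * Cf * (B : ℝ) * h ^ 2 * ((y : ℝ) + 1) ^ (-(3 / 4) : ℝ)) ≤
          ∑ d ∈ wi y h, RB e β B d *
          ((EN p N d (1 / (8 * (d : ℝ))) + ES p N d (1 / (8 * (d : ℝ)))) -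
            (EN p N d (zy y) + ES p N d (zy y))) := by
        apply neg_le_of_abs_le
        refine (abs_sum_le_sum_abs _ _).trans ?_
        calc _ ≤ ∑ d ∈ wi y h, (B : ℝ) * (Cf * (8 * h * ((y : ℝ) + 1) ^ (-(3 / 4) : ℝ))) := by
              apply sum_le_sum
              intro d hd
              obtain ⟨_, _, hyd, hdy⟩ := hmem y d hd
              have hyd' : (y : ℝ) + 1 ≤ d := by exact_mod_cast hyd
              have hdy' : (d : ℝ) ≤ y + h := by exact_mod_cast hdy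
              have hy0 : (0 : ℝ) ≤ y := by positivity
              have hd0 : (0 : ℝ) < d := by linarith
              rw [abs_mul]
              apply mul_le_mul (RB_le dp e N0 (2 * k - 2) d hN0) _ (abs_nonneg _) (by positivity)
              rw [abs_sub_comm]
              refine (frz p hok N d (zy y) (1 / (8 * (d : ℝ))) (by positivity) ?_
                (hzy1 y)).1.trans ?_
              · simp only [hzy]
                apply one_div_le_one_div_of_le (by positivity)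
                linarith
              · apply mul_le_mul_of_nonneg_left _ hCf.le
                simp only [hzy]
                rw [z_pow (by positivity), z_pow (by positivity)]
                refine (frz_step (by positivity) (by linarith)).trans ?_
                have f1 : (8 * ((y : ℝ) + 1)) ^ (-(3 / 4) : ℝ) ≤
                    ((y : ℝ) + 1) ^ (-(3 / 4) : ℝ) := by
                  apply Real.rpow_le_rpow_of_nonpos (by positivity) (by linarith) (by norm_num)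
                have f2 : 8 * (d : ℝ) - 8 * ((y : ℝ) + 1) ≤ 8 * h := by linarith
                exact mul_le_mul f2 f1 (by positivity) (by positivity)
          _ = (wi y h).card * ((B : ℝ) * (Cf * (8 * h * ((y : ℝ) + 1) ^ (-(3 / 4) : ℝ)))) := by
              rw [sum_const, nsmul_eq_mul]
          _ ≤ h * ((B : ℝ) * (Cf * (8 * h * ((y : ℝ) + 1) ^ (-(3 / 4) : ℝ)))) :=
              mul_le_mul_of_nonneg_right (hcardw y) (by positivity)
          _ = _ := by ring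
      have e3 : c * Real.log M ^ K * GY K y h ≤ ∑ d ∈ wi y h, EBS e (aS ε) β B N d (zy y) := by
        unfold GY PK
        rw [mul_sum]
        apply sum_le_sum
        intro d hd
        obtain ⟨hdo, _, _, _⟩ := hmem y d hd
        have := ebl e he' (aS ε) ha N0 M N d (zy y) hM hMN hN hdo (hzy0 y) hNz
        calc _ = c * (∏ p ∈ d.primeFactors, (1 + (K : ℝ) / p))⁻¹ * Real.log M ^ K := by ring
          _ ≤ _ := this
      have e4 := neg_abs_le (∑ d ∈ wi y h, EBN e (aS ε) β B N d (zy y))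
      have e5 : 0 ≤ Cn * (B : ℝ) * h ^ 2 * ((y : ℝ) + 1) ^ (-(3 / 4) : ℝ) := by positivity
      have e6 : (8 * Cf + Cn) * (B : ℝ) * h ^ 2 * ((y : ℝ) + 1) ^ (-(3 / 4) : ℝ) =
          8 * Cf * (B : ℝ) * h ^ 2 * ((y : ℝ) + 1) ^ (-(3 / 4) : ℝ) +
          Cn * (B : ℝ) * h ^ 2 * ((y : ℝ) + 1) ^ (-(3 / 4) : ℝ) := by ring
      rw [e1, e6]
      linarith
    refine (sum_le_sum h1).trans ?_
    refine le_trans ?_ (nsb (aS ε) ha e he' β d2 B hB1 (by rw [hB]; push_cast; exact d4) 1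
      (by norm_num) (by decide) Y h N hY hh hhY hBY)
    apply sum_le_sum_of_subset_of_nonneg (filter_subset _ _)
    intro y _ _
    exact abs_nonneg _
  -- the limit
  have hlim : Tendsto (fun N => ∑ y ∈ P, max 0 (c * Real.log M ^ K * GY K y h -
      (8 * Cf + Cn) * (B : ℝ) * h ^ 2 * ((y : ℝ) + 1) ^ (-(3 / 4) : ℝ) - SN N y)) atTop
      (𝓝 (∑ y ∈ P, max 0 (c * Real.log M ^ K * GY K y h -
      (8 * Cf + Cn) * (B : ℝ) * h ^ 2 * ((y : ℝ) + 1) ^ (-(3 / 4) : ℝ) -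
        g0 / 2 * FY ε k N0 y h))) := by
    apply tendsto_finsetSum
    intro y _
    apply Tendsto.max tendsto_const_nhds
    apply Tendsto.sub tendsto_const_nhds
    have e1 : g0 / 2 * FY ε k N0 y h = ∑ d ∈ wi y h, RB e β B d *
        (g0 / 2 * LLg (F8 ε) d (1 / 2)) := by
      unfold FY
      rw [mul_sum]
      apply sum_congr rfl
      intro d _
      rw [hβ, hB, RB_eq dp e N0 (2 * k - 2) d hN0]
      ring
    rw [e1]
    apply tendsto_finsetSum
    intro d hd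
    obtain ⟨hdo, hds, _, _⟩ := hmem y d hd
    have := rep (F8 ε) hfam d hdo hds
    rw [hpar] at this
    exact this.const_mul (RB e β B d)
  have h2 := le_of_tendsto hlim (eventually_atTop.2 ⟨N0, fun N hN => key N hN⟩)
  refine h2.trans ?_
  apply mul_le_mul_of_nonneg_right _ (by positivity)
  linarith

end

end Pool.Agent.Q122.MB
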