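import Pool.Agent.Q122.FM.Stm

set_option autoImplicit false

/-!
# Project MB (helper122): lower bounds for all moments of `L(1/2, χ_d)` in short intervals

The library `Pool.Agent.Q122.FM.All` gives `Pool.Agent.Q122.FM.ls1 : S_LS1`, `ker`, `igf`, `ra`,
`rep`, `frz`, `wa1`, `fdd`, ... (all statements of `Pool.Agent.Q122.FM.Stm`, without hypotheses).
-/

namespace Pool.Agent.Q122.MB

open Finset Filter Topology MeasureTheory Pool.Agent.H306R2.RZ Pool.Agent.H306R2.RG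
open Pool.Agent.Q122.FM

noncomputable section

/-! ### the resonator -/

/-- `1, 1/2, 3/8, 0, 0, …`: the function `d_{1/2}` at prime powers, cut after the squares -/
def gg (j : ℕ) : ℝ := if j = 0 then 1 else if j = 1 then 1 / 2 else if j = 2 then 3 / 8 else 0

/-- multiplicative, supported on the cube-free integers -/
def g (n : ℕ) : ℝ := ∏ p ∈ n.primeFactors, gg (n.factorization p)

/-- `g(n)/√n` for odd `n ≤ N₀` -/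
def GN (N0 : ℕ) : ArithmeticFunction ℝ :=
  ⟨fun n => if 1 ≤ n ∧ n ≤ N0 ∧ Odd n then g n / Real.sqrt n else 0, by simp⟩

/-- coefficients of the `j`-th power (Dirichlet convolution) -/
def Gp (N0 j m : ℕ) : ℝ := (GN N0 ^ j) m

/-- the resonator `∑_{n ≤ N₀, odd} g(n) (e d/n)/√n` -/
def DD (e : ℤ) (N0 d : ℕ) : ℝ :=
  ∑ n ∈ (Icc 1 N0).filter (fun n => Odd n), g n / Real.sqrt n * js (e * (d : ℤ)) n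

/-! ### twisted sums -/

/-- `∑_{b ≤ B, odd} β(b) (e d/b)` -/
def RB (e : ℤ) (β : ℕ → ℝ) (B d : ℕ) : ℝ :=
  ∑ b ∈ (Icc 1 B).filter (fun b => Odd b), β b * js (e * (d : ℤ)) b

/-- coefficient of `(e d/m)` in the product of the resonator and the truncated `L(1/2, χ)` -/
def cB (a : ℕ) (β : ℕ → ℝ) (B N : ℕ) (z : ℝ) (m : ℕ) : ℝ :=
  ∑ b ∈ (Icc 1 B).filter (fun b => b ∣ m ∧ m / b ≤ N),
    β b * (1 / Real.sqrt ((m / b : ℕ) : ℝ) * IG a (((m / b : ℕ) : ℝ) ^ 2 * z))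

/-- the part of the non-squares -/
def EBN (e : ℤ) (a : ℕ) (β : ℕ → ℝ) (B N d : ℕ) (z : ℝ) : ℝ :=
  ∑ m ∈ (Icc 1 (N * B)).filter (fun m => Odd m ∧ ¬ IsSquare m), js (e * (d : ℤ)) m * cB a β B N z m

/-- the part of the squares -/
def EBS (e : ℤ) (a : ℕ) (β : ℕ → ℝ) (B N d : ℕ) (z : ℝ) : ℝ :=
  ∑ m ∈ (Icc 1 (N * B)).filter (fun m => Odd m ∧ IsSquare m), js (e * (d : ℤ)) m * cB a β B N z m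

/-- the kernel of the twisted sums -/
def KB (a : ℕ) (β : ℕ → ℝ) (B N : ℕ) (w : ℝ) (m : ℕ) : ℝ :=
  ∑ b ∈ (Icc 1 B).filter (fun b => b ∣ m ∧ m / b ≤ N),
    β b * (((m / b : ℕ) : ℝ) ^ a * ((B : ℝ) ^ 2 * w) ^ ((a : ℝ) / 2) *
      Real.exp (-(Real.pi * ((m / b : ℕ) : ℝ) ^ 2 * ((B : ℝ) ^ 2 * w))))

/-! ### the jobs -/

/-- SPL: product of the resonator and of the truncated `L`-value -/
def S_SPL : Prop := ∀ e : ℤ, ∀ a : ℕ, ∀ β : ℕ → ℝ, ∀ (B N d : ℕ) (z : ℝ), 1 ≤ N →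
  EBN e a β B N d z + EBS e a β B N d z =
    RB e β B d * (EN ⟨e, 8, a, 0⟩ N d z + ES ⟨e, 8, a, 0⟩ N d z)

/-- KBI: the kernel -/
def S_KBI : Prop :=
  (∃ C : ℝ, 1 ≤ C ∧ ∀ a : ℕ, (a = 0 ∨ a = 1) → ∀ β : ℕ → ℝ, (∀ b, 0 ≤ β b) → ∀ B N : ℕ, 1 ≤ B →
    ∀ (m : ℕ) (w : ℝ), 1 ≤ m → 0 < w →
    |KB a β B N w m| ≤ C * (∑ b ∈ Icc 1 B, β b) * kap ((m : ℝ) ^ 2 * w)) ∧
  (∀ a : ℕ, (a = 0 ∨ a = 1) → ∀ (e : ℤ) (β : ℕ → ℝ) (B N d : ℕ) (z : ℝ), 1 ≤ B → 0 < z →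
    IntegrableOn (fun w : ℝ => w ^ (-(3 / 4) : ℝ) * N1 e (KB a β B N w) (N * B) d)
      (Set.Ioi (z / (B : ℝ) ^ 2)) ∧
    EBN e a β B N d z = Real.sqrt B * ∫ w in Set.Ioi (z / (B : ℝ) ^ 2),
      w ^ (-(3 / 4) : ℝ) * N1 e (KB a β B N w) (N * B) d)

/-- J1B: twisted non-squares, `d` divisible by `q²`, in the mean -/
def S_J1B : Prop := ∃ C : ℝ, 0 < C ∧ ∀ a : ℕ, (a = 0 ∨ a = 1) →
  ∀ e : ℤ, (e = 1 ∨ e = -1 ∨ e = 2 ∨ e = -2) → ∀ β : ℕ → ℝ, (∀ b, 0 ≤ β b) →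
  ∀ B : ℕ, 1 ≤ B → ∑ b ∈ Icc 1 B, β b ≤ B →
  ∀ c : ℕ, c < 8 → Odd c → ∀ q : ℕ, Odd q → ∀ Y h N : ℕ, 3 ≤ Y → 1 ≤ h → B ≤ Y →
  ∑ y ∈ range Y, |∑ d ∈ (Ioc y (y + h)).filter (fun d => q ^ 2 ∣ d ∧ d % 8 = c),
      EBN e a β B N d (1 / (8 * ((y : ℝ) + 1)))| ≤
    C * ((B : ℝ) ^ 4 * Real.sqrt h * Y * Real.log Y ^ 2)

/-- J2B -/
def S_J2B : Prop := ∃ C : ℝ, 0 < C ∧ ∀ a : ℕ, (a = 0 ∨ a = 1) →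
  ∀ e : ℤ, (e = 1 ∨ e = -1 ∨ e = 2 ∨ e = -2) → ∀ β : ℕ → ℝ, (∀ b, 0 ≤ β b) →
  ∀ B : ℕ, 1 ≤ B → ∑ b ∈ Icc 1 B, β b ≤ B →
  ∀ c : ℕ, c < 8 → Odd c → ∀ A Y h N : ℕ, 1 ≤ A → 3 ≤ Y → 1 ≤ h → h ≤ Y → B ≤ Y →
  ∑ y ∈ range Y, ∑ d ∈ (Ioc y (y + h)).filter (fun d => d % 8 = c),
      |FM.RA A d| * |EBN e a β B N d (1 / (8 * ((y : ℝ) + 1)))| ≤
    C * ((B : ℝ) ^ 4 * h * Y * Real.log Y ^ 2 / Real.sqrt A)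

/-- NSB: twisted non-squares, squarefree `d` -/
def S_NSB : Prop := ∃ C : ℝ, 0 < C ∧ ∀ a : ℕ, (a = 0 ∨ a = 1) →
  ∀ e : ℤ, (e = 1 ∨ e = -1 ∨ e = 2 ∨ e = -2) → ∀ β : ℕ → ℝ, (∀ b, 0 ≤ β b) →
  ∀ B : ℕ, 1 ≤ B → ∑ b ∈ Icc 1 B, β b ≤ B →
  ∀ c : ℕ, c < 8 → Odd c → ∀ Y h N : ℕ, 3 ≤ Y → 1 ≤ h → h ≤ Y → B ≤ Y →
  ∑ y ∈ range Y, |∑ d ∈ (Ioc y (y + h)).filter (fun d => d % 8 = c ∧ Squarefree d),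
      EBN e a β B N d (1 / (8 * ((y : ℝ) + 1)))| ≤
    C * ((B : ℝ) ^ 4 * Y * Real.log Y ^ 2 * (h : ℝ) ^ (5 / 6 : ℝ))

/-- CH: sums of a real character over an interval and a residue class modulo 8 -/
def S_CH : Prop := ∀ e : ℤ, (e = 1 ∨ e = -1 ∨ e = 2 ∨ e = -2) → ∀ c : ℕ, c < 8 → Odd c →
  ∀ m : ℕ, Odd m → ¬ IsSquare m → ∀ y h : ℕ,
  |∑ d ∈ (Ioc y (y + h)).filter (fun d => d % 8 = c), js (e * (d : ℤ)) m| ≤ 8 * m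

/-- DP: the powers of the resonator -/
def S_DP : Prop := ∀ N0 j : ℕ, 1 ≤ N0 →
  (∀ (e : ℤ) (d : ℕ), DD e N0 d ^ j =
    ∑ m ∈ (Icc 1 (N0 ^ j)).filter (fun m => Odd m), Gp N0 j m * js (e * (d : ℤ)) m) ∧
  (∀ m, 0 ≤ Gp N0 j m) ∧ (∀ m, Gp N0 j m ≠ 0 → 1 ≤ m ∧ m ≤ N0 ^ j ∧ Odd m) ∧
  ∑ m ∈ Icc 1 (N0 ^ j), Gp N0 j m ≤ (N0 : ℝ) ^ j

/-- SQX: the squares in the even powers -/
def S_SQX : Prop := ∀ k : ℕ, 1 ≤ k → ∃ C : ℝ, 0 < C ∧ ∀ N0 : ℕ, 1 ≤ N0 →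
  ∑ m ∈ (Icc 1 (N0 ^ (2 * k))).filter (fun m => Odd m ∧ IsSquare m), Gp N0 (2 * k) m ≤
    C * (1 + Real.log N0) ^ (k * (k + 1) / 2)

/-- WKC: the coefficients at the squares of squarefree numbers -/
def S_WKC : Prop := ∀ k : ℕ, 1 ≤ k → ∀ N0 m : ℕ, Squarefree m → Odd m → m ^ 2 ≤ N0 →
  ∑ b ∈ (m ^ 2).divisors, Real.sqrt b * Gp N0 (2 * k - 2) b =
    ((k * (k + 1) / 2 : ℕ) : ℝ) ^ m.primeFactors.card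

/-- LBM: a lower bound for a sum of a multiplicative function -/
def S_LBM : Prop := ∀ K : ℕ, 1 ≤ K → ∃ c : ℝ, 0 < c ∧ ∀ M d : ℕ, 1 ≤ M → 1 ≤ d →
  c * (∏ p ∈ d.primeFactors, (1 + (K : ℝ) / p))⁻¹ * Real.log M ^ K ≤
    ∑ m ∈ (Icc 1 M).filter (fun m => Squarefree m ∧ Odd m ∧ m.Coprime d),
      (K : ℝ) ^ m.primeFactors.card / m

/-- GD: an upper bound in short intervals -/
def S_GD : Prop := ∀ K : ℕ, ∃ C : ℝ, 0 < C ∧ ∀ y h : ℕ, 1 ≤ h →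
  ∑ d ∈ Ioc y (y + h), ∏ p ∈ d.primeFactors, (1 + (K : ℝ) / p) ≤
    C * (h + (1 + Real.log ((y + h : ℕ) : ℝ)) ^ K)

/-- UPM: upper bound for the moments of the resonator -/
def S_UPM : Prop := ∀ k : ℕ, 1 ≤ k → ∃ C : ℝ, 0 < C ∧
  ∀ e : ℤ, (e = 1 ∨ e = -1 ∨ e = 2 ∨ e = -2) → ∀ c : ℕ, c < 8 → Odd c →
  ∀ y h N0 : ℕ, 1 ≤ N0 →
  ∑ d ∈ (Ioc y (y + h)).filter (fun d => d % 8 = c), DD e N0 d ^ (2 * k) ≤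
    C * (h * (1 + Real.log N0) ^ (k * (k + 1) / 2) + (N0 : ℝ) ^ (4 * k))

/-- EBL: lower bound for the part of the squares -/
def S_EBL : Prop := ∀ k : ℕ, 1 ≤ k → ∃ c : ℝ, 0 < c ∧
  ∀ e : ℤ, (e = 1 ∨ e = -1 ∨ e = 2 ∨ e = -2) → ∀ a : ℕ, (a = 0 ∨ a = 1) →
  ∀ N0 M N d : ℕ, ∀ z : ℝ, 1 ≤ M → M ^ 2 ≤ N0 → N0 ≤ N → Odd d → 0 < z → (N0 : ℝ) ^ 2 * z ≤ 1 →
  c * (∏ p ∈ d.primeFactors, (1 + ((k * (k + 1) / 2 : ℕ) : ℝ) / p))⁻¹ *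
      Real.log M ^ (k * (k + 1) / 2) ≤
    EBS e a (Gp N0 (2 * k - 2)) (N0 ^ (2 * k - 2)) N d z

open Classical in
/-- moments in a window -/
def MK (ε : ℤ) (k x H : ℕ) : ℝ :=
  ∑ n ∈ Ioc x (x + H), if IsFund (ε * n) then |LHalf (ε * n)| ^ k else 0

/-- MB: the theorem -/
def S_MB : Prop := ∀ k : ℕ, 1 ≤ k → ∀ ε0 : ℝ, 0 < ε0 → ∃ c δ : ℝ, 0 < c ∧ 0 < δ ∧ ∃ X0 : ℕ,
  ∀ ε : ℤ, (ε = 1 ∨ ε = -1) → ∀ X H : ℕ, X0 ≤ X → (X : ℝ) ^ ε0 ≤ H → H ≤ X →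
  (((Icc 1 X).filter (fun x => MK ε k x H < c * H * Real.log X ^ (k * (k + 1) / 2))).card : ℝ) ≤
    (X : ℝ) ^ (1 - δ)

end

end Pool.Agent.Q122.MB
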