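import Pool.Agent.Q122.MB.WINa

set_option autoImplicit false

/-! Project MB: the parameters. -/

namespace Pool.Agent.Q122.MB

open Finset Filter Topology MeasureTheory Pool.Agent.H306R2.RZ Pool.Agent.H306R2.RG
open Pool.Agent.Q122.FM

noncomputable section

theorem evlog (C : ℝ) (n : ℕ) {a : ℝ} (ha : 0 < a) :
    ∀ᶠ Y : ℕ in atTop, C * (1 + Real.log Y) ^ n ≤ (Y : ℝ) ^ a := by
  have h1 := isLittleO_log_rpow_rpow_atTop (n : ℝ) ha
  have hc : (0 : ℝ) < 1 / (|C| * 2 ^ n + 1) := by positivity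
  have h2 := tendsto_natCast_atTop_atTop (R := ℝ) |>.eventually (h1.def hc)
  filter_upwards [h2, eventually_ge_atTop 3] with Y hY hY3
  have hl1 := one_le_log hY3
  have hY0 : (0 : ℝ) < Y := by
    have : (3 : ℝ) ≤ Y := by exact_mod_cast hY3
    linarith
  rw [Real.rpow_natCast, Real.norm_of_nonneg (by positivity),
    Real.norm_of_nonneg (by positivity)] at hY
  have h3 : (1 + Real.log (Y : ℝ)) ^ n ≤ 2 ^ n * Real.log Y ^ n := by
    rw [← mul_pow]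
    exact pow_le_pow_left₀ (by linarith) (by linarith) n
  have hp : 0 ≤ (Y : ℝ) ^ a := by positivity
  calc C * (1 + Real.log (Y : ℝ)) ^ n ≤ |C| * (1 + Real.log (Y : ℝ)) ^ n :=
        mul_le_mul_of_nonneg_right (le_abs_self C) (by positivity)
    _ ≤ |C| * (2 ^ n * Real.log Y ^ n) := mul_le_mul_of_nonneg_left h3 (abs_nonneg C)
    _ ≤ (|C| * 2 ^ n + 1) * Real.log Y ^ n := by
        have : 0 ≤ Real.log (Y : ℝ) ^ n := by positivity
        nlinarith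
    _ ≤ (|C| * 2 ^ n + 1) * (1 / (|C| * 2 ^ n + 1) * (Y : ℝ) ^ a) :=
        mul_le_mul_of_nonneg_left hY (by positivity)
    _ = (Y : ℝ) ^ a := by field_simp

theorem evT (t : ℝ) : ∀ᶠ Y : ℕ in atTop, t ≤ Real.log Y :=
  (Real.tendsto_log_atTop.comp tendsto_natCast_atTop_atTop).eventually_ge_atTop t

/-- the facts about the parameters -/
structure PF (k : ℕ) (ε1 : ℝ) (Y h N0 M : ℕ) : Prop where
  Y3 : 3 ≤ Y
  h1 : 1 ≤ h
  hY : h ≤ Y
  M1 : 1 ≤ M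
  MN : M ^ 2 ≤ N0
  B1 : ((N0 ^ (2 * k - 2) : ℕ) : ℝ) ≤ (Y : ℝ) ^ (ε1 / 48)
  N4 : (N0 : ℝ) ^ (4 * k) ≤ h
  N2 : (N0 : ℝ) ^ 2 ≤ (Y : ℝ) ^ (1 / 2 : ℝ)
  lM : ε1 / (96 * k) / 4 * Real.log Y ≤ Real.log M
  hlo : (Y : ℝ) ^ ε1 / 2 ≤ h
  hhi : (h : ℝ) ≤ (Y : ℝ) ^ ε1
  hlog : (1 + Real.log (2 * (Y : ℝ))) ^ (k * (k + 1) / 2) ≤ h
  lN : Real.log N0 ≤ Real.log Y

theorem params (k : ℕ) (hk : 1 ≤ k) (ε1 : ℝ) (h0 : 0 < ε1) (h18 : ε1 ≤ 1 / 8) :
    ∀ᶠ Y : ℕ in atTop, PF k ε1 Y ⌊(Y : ℝ) ^ ε1⌋₊ ⌊(Y : ℝ) ^ (ε1 / (96 * k))⌋₊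
      (Nat.sqrt ⌊(Y : ℝ) ^ (ε1 / (96 * k))⌋₊) := by
  have hk' : (1 : ℝ) ≤ k := by exact_mod_cast hk
  set η : ℝ := ε1 / (96 * k) with hη
  have hη0 : 0 < η := by positivity
  have hηk : η * k = ε1 / 96 := by rw [hη]; field_simp
  have hη1 : η ≤ ε1 / 96 := by nlinarith
  set K : ℕ := k * (k + 1) / 2 with hK
  filter_upwards [evlog 2 0 h0, evlog 2 0 hη0, evlog 2 0 (half_pos h0), evT (2 * Real.log 8 / η),
    evlog (2 ^ (K + 1)) K h0, eventually_ge_atTop 3] with Y e1 e2 e3 e4 e5 hY3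
  simp only [pow_zero, mul_one] at e1 e2 e3
  have hl1 := one_le_log hY3
  have hY3' : (3 : ℝ) ≤ Y := by exact_mod_cast hY3
  have hY0 : (0 : ℝ) < Y := by linarith
  have hY1 : (1 : ℝ) ≤ Y := by linarith
  set h := ⌊(Y : ℝ) ^ ε1⌋₊ with hh
  set N0 := ⌊(Y : ℝ) ^ η⌋₊ with hN0
  have hhi : (h : ℝ) ≤ (Y : ℝ) ^ ε1 := Nat.floor_le (by positivity)
  have hlo : (Y : ℝ) ^ ε1 / 2 ≤ h := by
    have := Nat.lt_floor_add_one ((Y : ℝ) ^ ε1)
    rw [← hh] at this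
    linarith
  have hh1' : (1 : ℝ) ≤ h := by linarith
  have hh1 : 1 ≤ h := by exact_mod_cast hh1'
  have hhY : h ≤ Y := by
    have : (h : ℝ) ≤ Y := by
      calc (h : ℝ) ≤ (Y : ℝ) ^ ε1 := hhi
        _ ≤ (Y : ℝ) ^ (1 : ℝ) := Real.rpow_le_rpow_of_exponent_le hY1 (by linarith)
        _ = Y := Real.rpow_one _
    exact_mod_cast this
  have hNhi : (N0 : ℝ) ≤ (Y : ℝ) ^ η := Nat.floor_le (by positivity)
  have hNlo : (Y : ℝ) ^ η / 2 ≤ N0 := by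
    have := Nat.lt_floor_add_one ((Y : ℝ) ^ η)
    rw [← hN0] at this
    linarith
  have hN1' : (1 : ℝ) ≤ N0 := by linarith
  have hN1 : 1 ≤ N0 := by exact_mod_cast hN1'
  have hNpow : ∀ j : ℕ, (N0 : ℝ) ^ j ≤ (Y : ℝ) ^ (η * j) := by
    intro j
    rw [Real.rpow_mul hY0.le, Real.rpow_natCast]
    exact pow_le_pow_left₀ (by linarith) hNhi j
  set M := Nat.sqrt N0 with hM
  have hM2 : M ^ 2 ≤ N0 := Nat.sqrt_le' N0
  have hM3 : N0 < (M + 1) ^ 2 := Nat.lt_succ_sqrt' N0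
  have hM1 : 1 ≤ M := by
    by_contra hlt
    have : M = 0 := by omega
    rw [this] at hM3
    omega
  have hM1' : (1 : ℝ) ≤ M := by exact_mod_cast hM1
  refine ⟨hY3, hh1, hhY, hM1, hM2, ?_, ?_, ?_, ?_, hlo, hhi, ?_, ?_⟩
  · push_cast
    refine (hNpow _).trans ?_
    apply Real.rpow_le_rpow_of_exponent_le hY1
    rw [Nat.cast_sub (by omega)]
    push_cast
    nlinarith
  · refine (hNpow _).trans ?_
    have e6 : η * ((4 * k : ℕ) : ℝ) = ε1 / 24 := by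
      push_cast
      linarith
    rw [e6]
    refine le_trans ?_ hlo
    rw [le_div_iff₀ (by norm_num)]
    calc (Y : ℝ) ^ (ε1 / 24) * 2 ≤ (Y : ℝ) ^ (ε1 / 24) * (Y : ℝ) ^ (ε1 / 2) :=
          mul_le_mul_of_nonneg_left e3 (by positivity)
      _ = (Y : ℝ) ^ (ε1 / 24 + ε1 / 2) := (Real.rpow_add hY0 _ _).symm
      _ ≤ _ := Real.rpow_le_rpow_of_exponent_le hY1 (by linarith)
  · refine (hNpow 2).trans ?_
    apply Real.rpow_le_rpow_of_exponent_le hY1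
    push_cast
    linarith
  · -- log M
    have f1 : (N0 : ℝ) ≤ 4 * (M : ℝ) ^ 2 := by
      have f2 : (N0 : ℝ) < ((M : ℝ) + 1) ^ 2 := by exact_mod_cast hM3
      nlinarith
    have f2 : (Y : ℝ) ^ η ≤ 8 * (M : ℝ) ^ 2 := by linarith
    have f3 : Real.log ((Y : ℝ) ^ η) ≤ Real.log (8 * (M : ℝ) ^ 2) :=
      Real.log_le_log (by positivity) f2
    rw [Real.log_rpow hY0, Real.log_mul (by norm_num) (by positivity), Real.log_pow] at f3
    push_cast at f3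
    have f4 : Real.log 8 ≤ η / 2 * Real.log Y := by
      rw [div_le_iff₀ hη0] at e4
      linarith
    linarith
  · -- log
    have f1 : Real.log (2 * (Y : ℝ)) = Real.log 2 + Real.log Y :=
      Real.log_mul (by norm_num) hY0.ne'
    have f2 := Real.log_two_lt_d9
    have f3 : (1 + Real.log (2 * (Y : ℝ))) ^ K ≤ (2 * (1 + Real.log Y)) ^ K := by
      have f4 : 0 ≤ Real.log (2 * (Y : ℝ)) := Real.log_nonneg (by linarith)
      apply pow_le_pow_left₀ (by linarith)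
      rw [f1]
      linarith
    refine f3.trans (le_trans ?_ hlo)
    rw [mul_pow, le_div_iff₀ (by norm_num)]
    calc _ = 2 ^ (K + 1) * (1 + Real.log (Y : ℝ)) ^ K := by ring
      _ ≤ _ := e5
  · have f1 : (N0 : ℝ) ≤ Y := by
      calc (N0 : ℝ) ≤ (Y : ℝ) ^ η := hNhi
        _ ≤ (Y : ℝ) ^ (1 : ℝ) := Real.rpow_le_rpow_of_exponent_le hY1 (by linarith)
        _ = Y := Real.rpow_one _
    exact Real.log_le_log (by linarith) f1

end

end Pool.Agent.Q122.MB
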