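import Pool.Agent.Q122.MB.WINb

set_option autoImplicit false

/-! Project MB: lemmas for the windows of one class. -/

namespace Pool.Agent.Q122.MB

open Finset Filter Topology MeasureTheory Pool.Agent.H306R2.RZ Pool.Agent.H306R2.RG
open Pool.Agent.Q122.FM

noncomputable section

/-- the truncated difference of `s1` -/
def Xy (ε : ℤ) (k : ℕ) (c1 C1 g0 : ℝ) (h N0 M y : ℕ) : ℝ :=
  max 0 (c1 * Real.log M ^ (k * (k + 1) / 2) * GY (k * (k + 1) / 2) y h -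
          C1 * ((N0 ^ (2 * k - 2) : ℕ) : ℝ) * h ^ 2 * ((y : ℝ) + 1) ^ (-(3 / 4) : ℝ) -
          g0 / 2 * FY ε k N0 y h)

theorem good_y {k : ℕ} (hk : 1 ≤ k) {ε1 : ℝ} (h0 : 0 < ε1) (h18 : ε1 ≤ 1 / 8) {Y h N0 M : ℕ}
    (pf : PF k ε1 Y h N0 M) {ε : ℤ} {c1 C1 cG CU g0 gM : ℝ} (hc1 : 0 < c1)
    (hcG : 0 < cG) (hCU : 0 < CU) (hg00 : 0 < g0) (hg0M : g0 ≤ gM)
    (hU : ∀ y h N0 : ℕ, 1 ≤ N0 →
      ∑ d ∈ (Ioc y (y + h)).filter (fun d => d % 8 = 1), DD (2 * ε) N0 d ^ (2 * k) ≤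
        CU * (h * (1 + Real.log N0) ^ (k * (k + 1) / 2) + (N0 : ℝ) ^ (4 * k)))
    (e1 : 1 / (c1 * cG * (ε1 / (96 * k) / 4) ^ (k * (k + 1) / 2) / 4) ≤ Real.log Y)
    (e2 : C1 ≤ (Y : ℝ) ^ (1 / 8 : ℝ)) {y : ℕ} (hy1 : Y < (y + 1) ^ 2)
    (hy2 : cG * h ≤ GY (k * (k + 1) / 2) y h)
    (hy3 : Xy ε k c1 C1 g0 h N0 M y ≤ h) :
    (4 * (c1 * cG * (ε1 / (96 * k) / 4) ^ (k * (k + 1) / 2) / 4) / gM) ^ k /
      (CU * (2 ^ (k * (k + 1) / 2) + 1)) ^ (k - 1) * (h : ℝ) *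
        Real.log Y ^ (k * (k + 1) / 2) ≤ mom ε k y h := by
  obtain ⟨hY3, hh1, hhY, hM1, hMN, hB1, hN4, hN2, hlM, hlo, hhi, hlog, hlN⟩ := pf
  set K : ℕ := k * (k + 1) / 2 with hK
  have hK1 : 1 ≤ K := by
    rw [hK, Nat.le_div_iff_mul_le (by norm_num)]
    nlinarith
  have hk' : (1 : ℝ) ≤ k := by exact_mod_cast hk
  set η : ℝ := ε1 / (96 * k) with hη
  have hη0 : 0 < η := by positivity
  set c5 : ℝ := c1 * cG * (η / 4) ^ K / 4 with hc5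
  have hc50 : 0 < c5 := by positivity
  set C6 : ℝ := CU * (2 ^ K + 1) with hC6
  have hC60 : 0 < C6 := by positivity
  have hgM0 : 0 < gM := by linarith
  set T := Real.log (Y : ℝ) with hT
  set B : ℕ := N0 ^ (2 * k - 2) with hB
  have hl1 : 1 ≤ T := one_le_log hY3
  have hY3' : (3 : ℝ) ≤ Y := by exact_mod_cast hY3
  have hY0 : (0 : ℝ) < Y := by linarith
  have hY1 : (1 : ℝ) ≤ Y := by linarith
  have hh0 : (0 : ℝ) < h := by exact_mod_cast hh1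
  have hN01 : 1 ≤ N0 := le_trans (Nat.one_le_pow _ _ hM1) hMN
  have hN01' : (1 : ℝ) ≤ N0 := by exact_mod_cast hN01
  have hTK : 1 / c5 ≤ T ^ K := by
    calc 1 / c5 ≤ T := e1
      _ = T ^ 1 := (pow_one T).symm
      _ ≤ T ^ K := pow_le_pow_right₀ hl1 hK1
  have hTK0 : 0 < T ^ K := by positivity
  have hy1' : (1 : ℝ) ≤ (y : ℝ) + 1 := by
    have : (0 : ℝ) ≤ y := by positivity
    linarith
  have hysq : (Y : ℝ) < ((y : ℝ) + 1) ^ 2 := by exact_mod_cast hy1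
  have hyhalf : (Y : ℝ) ^ (1 / 2 : ℝ) ≤ (y : ℝ) + 1 := by
    calc (Y : ℝ) ^ (1 / 2 : ℝ) ≤ (((y : ℝ) + 1) ^ 2) ^ (1 / 2 : ℝ) :=
          Real.rpow_le_rpow hY0.le hysq.le (by norm_num)
      _ = (y : ℝ) + 1 := by
          rw [← Real.rpow_natCast, ← Real.rpow_mul (by linarith)]
          norm_num
  have hX2 : c1 * Real.log M ^ K * GY K y h -
      C1 * ((B : ℕ) : ℝ) * h ^ 2 * ((y : ℝ) + 1) ^ (-(3 / 4) : ℝ) -
      g0 / 2 * FY ε k N0 y h ≤ h := (le_max_right _ _).trans hy3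
  -- main term
  have m1 : 4 * c5 * T ^ K * h ≤ c1 * Real.log M ^ K * GY K y h := by
    have q1 : (η / 4) ^ K * T ^ K ≤ Real.log M ^ K := by
      rw [← mul_pow]
      exact pow_le_pow_left₀ (by positivity) hlM K
    calc 4 * c5 * T ^ K * h = c1 * ((η / 4) ^ K * T ^ K) * (cG * h) := by rw [hc5]; ring
      _ ≤ c1 * Real.log M ^ K * GY K y h := by
          apply mul_le_mul _ hy2 (by positivity) _
          · exact mul_le_mul_of_nonneg_left q1 hc1.le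
          · apply mul_nonneg hc1.le
            exact le_trans (by positivity) q1
  -- freezing term
  have m2 : C1 * ((B : ℕ) : ℝ) * h ^ 2 * ((y : ℝ) + 1) ^ (-(3 / 4) : ℝ) ≤ h := by
    have q1 : ((y : ℝ) + 1) ^ (-(3 / 4) : ℝ) ≤ (Y : ℝ) ^ (-(3 / 8) : ℝ) := by
      calc ((y : ℝ) + 1) ^ (-(3 / 4) : ℝ) ≤ ((Y : ℝ) ^ (1 / 2 : ℝ)) ^ (-(3 / 4) : ℝ) :=
            Real.rpow_le_rpow_of_nonpos (by positivity) hyhalf (by norm_num)
        _ = _ := by rw [← Real.rpow_mul hY0.le]; norm_num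
    have q2 : C1 * ((B : ℕ) : ℝ) * h * ((y : ℝ) + 1) ^ (-(3 / 4) : ℝ) ≤ 1 := by
      calc C1 * ((B : ℕ) : ℝ) * h * ((y : ℝ) + 1) ^ (-(3 / 4) : ℝ) ≤
            (Y : ℝ) ^ (1 / 8 : ℝ) * (Y : ℝ) ^ (ε1 / 48) * (Y : ℝ) ^ ε1 *
              (Y : ℝ) ^ (-(3 / 8) : ℝ) := by
            apply mul_le_mul _ q1 (by positivity) (by positivity)
            apply mul_le_mul _ hhi (by positivity) (by positivity)
            exact mul_le_mul e2 hB1 (by positivity) (by positivity)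
        _ = (Y : ℝ) ^ (1 / 8 + ε1 / 48 + ε1 + -(3 / 8) : ℝ) := by
            rw [Real.rpow_add hY0, Real.rpow_add hY0, Real.rpow_add hY0]
        _ ≤ 1 := Real.rpow_le_one_of_one_le_of_nonpos hY1 (by linarith)
    calc C1 * ((B : ℕ) : ℝ) * h ^ 2 * ((y : ℝ) + 1) ^ (-(3 / 4) : ℝ) =
          h * (C1 * ((B : ℕ) : ℝ) * h * ((y : ℝ) + 1) ^ (-(3 / 4) : ℝ)) := by ring
      _ ≤ h * 1 := mul_le_mul_of_nonneg_left q2 hh0.le
      _ = h := mul_one _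
  have m3 : 2 * (h : ℝ) ≤ 2 * c5 * T ^ K * h := by
    have : 1 ≤ c5 * T ^ K := by
      rw [div_le_iff₀ hc50] at hTK
      linarith
    have := mul_le_mul_of_nonneg_right this hh0.le
    linarith
  have m4 : 2 * c5 * T ^ K * h ≤ g0 / 2 * FY ε k N0 y h := by linarith
  have m5 : 4 * c5 / gM * T ^ K * h ≤ FY ε k N0 y h := by
    have q1 : 4 * c5 / gM * T ^ K * h = (2 * c5 * T ^ K * h) * (2 / gM) := by ring
    have q2 : (2 : ℝ) / gM ≤ 2 / g0 := div_le_div_of_nonneg_left (by norm_num) hg00 hg0M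
    have q3 : FY ε k N0 y h = g0 / 2 * FY ε k N0 y h * (2 / g0) := by field_simp
    rw [q1, q3]
    apply mul_le_mul m4 q2 (by positivity)
    exact le_trans (by positivity) m4
  -- upper bound
  have m6 := hU y h N0 hN01
  have m7 : CU * (h * (1 + Real.log N0) ^ K + (N0 : ℝ) ^ (4 * k)) ≤ C6 * T ^ K * h := by
    have q0 : 0 ≤ Real.log (N0 : ℝ) := Real.log_nonneg hN01'
    have q1 : (1 + Real.log N0) ^ K ≤ 2 ^ K * T ^ K := by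
      rw [← mul_pow]
      exact pow_le_pow_left₀ (by linarith) (by linarith) K
    have q2 : (N0 : ℝ) ^ (4 * k) ≤ T ^ K * h := by
      refine hN4.trans ?_
      exact le_mul_of_one_le_left hh0.le (one_le_pow₀ hl1)
    calc CU * (h * (1 + Real.log N0) ^ K + (N0 : ℝ) ^ (4 * k)) ≤
          CU * (h * (2 ^ K * T ^ K) + T ^ K * h) := by
          apply mul_le_mul_of_nonneg_left _ hCU.le
          exact add_le_add (mul_le_mul_of_nonneg_left q1 hh0.le) q2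
      _ = C6 * T ^ K * h := by rw [hC6]; ring
  have m8 := mom_lower ε k N0 y h hk (4 * c5 / gM * T ^ K * h) (C6 * T ^ K * h)
    (by positivity) (by positivity) m5 (m6.trans m7)
  have m9 : (4 * c5 / gM * T ^ K * h) ^ k / (C6 * T ^ K * h) ^ (k - 1) =
      (4 * c5 / gM) ^ k / C6 ^ (k - 1) * h * T ^ K := by
    have q1 : (4 * c5 / gM * T ^ K * h) ^ k =
        (4 * c5 / gM) ^ k * ((T ^ K * h) ^ (k - 1) * (T ^ K * h)) := by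
      rw [← pow_succ, Nat.sub_add_cancel hk, ← mul_pow]
      ring
    have q2 : (C6 * T ^ K * h) ^ (k - 1) = C6 ^ (k - 1) * (T ^ K * h) ^ (k - 1) := by
      rw [← mul_pow]; ring
    have q3 : (T ^ K * h) ^ (k - 1) ≠ 0 := by positivity
    rw [q1, q2]
    field_simp
  rw [m9] at m8
  exact m8

theorem cardA (Y : ℕ) : (((range Y).filter (fun y => (y + 1) ^ 2 ≤ Y)).card : ℝ) ≤
    (Y : ℝ) ^ (1 / 2 : ℝ) := by
  have q1 : ((range Y).filter (fun y => (y + 1) ^ 2 ≤ Y)).card ≤ Nat.sqrt Y := by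
    calc _ ≤ (range (Nat.sqrt Y)).card := by
          apply card_le_card
          intro y hy
          rw [mem_filter] at hy
          rw [mem_range]
          have : y + 1 ≤ Nat.sqrt Y := Nat.le_sqrt'.2 hy.2
          omega
      _ = _ := card_range _
  have q2 : ((Nat.sqrt Y : ℕ) : ℝ) ≤ Real.sqrt Y := Real.nat_sqrt_le_real_sqrt
  rw [Real.sqrt_eq_rpow] at q2
  exact le_trans (by exact_mod_cast q1) q2

theorem cardB {CG ε1 : ℝ} {Y h : ℕ} (hCG : 0 < CG) (hY : 3 ≤ Y)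
    (hlo : (Y : ℝ) ^ ε1 / 2 ≤ h) :
    CG * Y / Real.sqrt h ≤ 2 * CG * (Y : ℝ) ^ (1 - ε1 / 2) := by
  have hY0 : (0 : ℝ) < Y := by
    have : (3 : ℝ) ≤ Y := by exact_mod_cast hY
    linarith
  have q1 : (Y : ℝ) ^ (ε1 / 2) / 2 ≤ Real.sqrt h := by
    apply Real.le_sqrt_of_sq_le
    have : ((Y : ℝ) ^ (ε1 / 2) / 2) ^ 2 = (Y : ℝ) ^ ε1 / 4 := by
      rw [div_pow, ← Real.rpow_natCast, ← Real.rpow_mul hY0.le]
      norm_num
    rw [this]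
    have : 0 ≤ (Y : ℝ) ^ ε1 := by positivity
    linarith
  have q2 : (0 : ℝ) < (Y : ℝ) ^ (ε1 / 2) / 2 := by positivity
  calc CG * Y / Real.sqrt h ≤ CG * Y / ((Y : ℝ) ^ (ε1 / 2) / 2) :=
        div_le_div_of_nonneg_left (by positivity) q2 q1
    _ = 2 * CG * (Y / (Y : ℝ) ^ (ε1 / 2)) := by field_simp
    _ = _ := by rw [Real.rpow_sub hY0, Real.rpow_one]

theorem cardC {C1 ε1 : ℝ} {Y h B : ℕ} (hC1 : 0 < C1) (hY : 3 ≤ Y) (hh1 : 1 ≤ h)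
    (hlo : (Y : ℝ) ^ ε1 / 2 ≤ h) (hB1 : (B : ℝ) ≤ (Y : ℝ) ^ (ε1 / 48)) :
    C1 * ((B : ℝ) ^ 4 * Y * Real.log Y ^ 2 * (h : ℝ) ^ (5 / 6 : ℝ)) / h ≤
      2 * C1 * (1 + Real.log Y) ^ 2 * (Y : ℝ) ^ (1 - ε1 / 12) := by
  have hY0 : (0 : ℝ) < Y := by
    have : (3 : ℝ) ≤ Y := by exact_mod_cast hY
    linarith
  have hl1 := one_le_log hY
  have hh0 : (0 : ℝ) < h := by exact_mod_cast hh1
  set T := Real.log (Y : ℝ) with hT
  have hB0 : (0 : ℝ) ≤ B := by positivity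
  have q1 : (B : ℝ) ^ 4 ≤ (Y : ℝ) ^ (ε1 / 12) := by
    calc (B : ℝ) ^ 4 ≤ ((Y : ℝ) ^ (ε1 / 48)) ^ 4 := pow_le_pow_left₀ hB0 hB1 4
      _ = _ := by
          rw [← Real.rpow_natCast, ← Real.rpow_mul hY0.le]
          congr 1
          push_cast
          ring
  have q2 : T ^ 2 ≤ (1 + T) ^ 2 := pow_le_pow_left₀ (by linarith) (by linarith) 2
  have q3 : (h : ℝ) ^ (5 / 6 : ℝ) / h ≤ 2 * (Y : ℝ) ^ (-(ε1 / 6)) := by
    have r1 : (h : ℝ) ^ (5 / 6 : ℝ) / h = (h : ℝ) ^ (-(1 / 6) : ℝ) := by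
      rw [div_eq_iff hh0.ne']
      have : (h : ℝ) ^ (5 / 6 : ℝ) = (h : ℝ) ^ (-(1 / 6) + 1 : ℝ) := by norm_num
      rw [this, Real.rpow_add hh0, Real.rpow_one]
    rw [r1]
    calc (h : ℝ) ^ (-(1 / 6) : ℝ) ≤ ((Y : ℝ) ^ ε1 / 2) ^ (-(1 / 6) : ℝ) :=
          Real.rpow_le_rpow_of_nonpos (by positivity) hlo (by norm_num)
      _ = (Y : ℝ) ^ (-(ε1 / 6)) * (2 : ℝ) ^ (1 / 6 : ℝ) := by
          rw [Real.div_rpow (by positivity) (by norm_num), ← Real.rpow_mul hY0.le,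
            Real.rpow_neg (by norm_num : (0 : ℝ) ≤ 2), div_inv_eq_mul]
          congr 2
          ring
      _ ≤ (Y : ℝ) ^ (-(ε1 / 6)) * (2 : ℝ) ^ (1 : ℝ) := by
          apply mul_le_mul_of_nonneg_left _ (by positivity)
          exact Real.rpow_le_rpow_of_exponent_le (by norm_num) (by norm_num)
      _ = _ := by rw [Real.rpow_one]; ring
  calc C1 * ((B : ℝ) ^ 4 * Y * T ^ 2 * (h : ℝ) ^ (5 / 6 : ℝ)) / h
      = C1 * ((B : ℝ) ^ 4 * Y * T ^ 2) * ((h : ℝ) ^ (5 / 6 : ℝ) / h) := by ring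
    _ ≤ C1 * ((Y : ℝ) ^ (ε1 / 12) * Y * (1 + T) ^ 2) * (2 * (Y : ℝ) ^ (-(ε1 / 6))) := by
        apply mul_le_mul _ q3 (by positivity) (by positivity)
        apply mul_le_mul_of_nonneg_left _ hC1.le
        apply mul_le_mul _ q2 (by positivity) (by positivity)
        exact mul_le_mul_of_nonneg_right q1 hY0.le
    _ = 2 * C1 * (1 + T) ^ 2 * ((Y : ℝ) ^ (ε1 / 12) * (Y : ℝ) ^ (1 : ℝ) *
          (Y : ℝ) ^ (-(ε1 / 6))) := by rw [Real.rpow_one]; ring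
    _ = _ := by
        rw [← Real.rpow_add hY0, ← Real.rpow_add hY0]
        congr 2
        ring

theorem total {ε1 CG C1 A B C : ℝ} {Y : ℕ} (h0 : 0 < ε1) (h18 : ε1 ≤ 1 / 8) (hY : 3 ≤ Y)
    (e3 : 3 ≤ (Y : ℝ) ^ (1 / 4 : ℝ)) (e4 : 6 * CG ≤ (Y : ℝ) ^ (ε1 / 4))
    (e5 : 6 * C1 * (1 + Real.log (Y : ℝ)) ^ 2 ≤ (Y : ℝ) ^ (ε1 / 24))
    (hA : A ≤ (Y : ℝ) ^ (1 / 2 : ℝ)) (hB : B ≤ 2 * CG * (Y : ℝ) ^ (1 - ε1 / 2))
    (hC : C ≤ 2 * C1 * (1 + Real.log Y) ^ 2 * (Y : ℝ) ^ (1 - ε1 / 12)) :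
    A + B + C ≤ (Y : ℝ) ^ (1 - ε1 / 24) := by
  have hY1 : (1 : ℝ) ≤ Y := by
    have : (3 : ℝ) ≤ Y := by exact_mod_cast hY
    linarith
  have hY0 : (0 : ℝ) < Y := by linarith
  have hD : 3 * (Y : ℝ) ^ (1 / 2 : ℝ) ≤ (Y : ℝ) ^ (1 - ε1 / 24) := by
    calc 3 * (Y : ℝ) ^ (1 / 2 : ℝ) ≤ (Y : ℝ) ^ (1 / 4 : ℝ) * (Y : ℝ) ^ (1 / 2 : ℝ) :=
          mul_le_mul_of_nonneg_right e3 (by positivity)
      _ = (Y : ℝ) ^ (1 / 4 + 1 / 2 : ℝ) := (Real.rpow_add hY0 _ _).symm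
      _ ≤ _ := Real.rpow_le_rpow_of_exponent_le hY1 (by linarith)
  have hE : 3 * (2 * CG * (Y : ℝ) ^ (1 - ε1 / 2)) ≤ (Y : ℝ) ^ (1 - ε1 / 24) := by
    calc 3 * (2 * CG * (Y : ℝ) ^ (1 - ε1 / 2)) = 6 * CG * (Y : ℝ) ^ (1 - ε1 / 2) := by ring
      _ ≤ (Y : ℝ) ^ (ε1 / 4) * (Y : ℝ) ^ (1 - ε1 / 2) :=
          mul_le_mul_of_nonneg_right e4 (by positivity)
      _ = (Y : ℝ) ^ (ε1 / 4 + (1 - ε1 / 2)) := (Real.rpow_add hY0 _ _).symm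
      _ ≤ _ := Real.rpow_le_rpow_of_exponent_le hY1 (by linarith)
  have hF : 3 * (2 * C1 * (1 + Real.log Y) ^ 2 * (Y : ℝ) ^ (1 - ε1 / 12)) ≤
      (Y : ℝ) ^ (1 - ε1 / 24) := by
    calc 3 * (2 * C1 * (1 + Real.log Y) ^ 2 * (Y : ℝ) ^ (1 - ε1 / 12)) =
          6 * C1 * (1 + Real.log (Y : ℝ)) ^ 2 * (Y : ℝ) ^ (1 - ε1 / 12) := by ring
      _ ≤ (Y : ℝ) ^ (ε1 / 24) * (Y : ℝ) ^ (1 - ε1 / 12) :=
          mul_le_mul_of_nonneg_right e5 (by positivity)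
      _ = (Y : ℝ) ^ (ε1 / 24 + (1 - ε1 / 12)) := (Real.rpow_add hY0 _ _).symm
      _ ≤ _ := Real.rpow_le_rpow_of_exponent_le hY1 (by linarith)
  linarith

end

end Pool.Agent.Q122.MB
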